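import Pool.Agent.Q78.FE.Stm2
import Pool.Agent.Q277.FE.YIN
import Pool.Agent.Q291.CS.Lower

/-! Project FE, part H-CNT: the high event has positive probability. -/

set_option autoImplicit false

namespace Q78.FE

open Finset H974 Pool.Agent.H160R2.CV Pool.Agent.H160R2.CV.Quad H362P
open Q291.CS Pool.Agent.Y244.PC Q277.FE.YIN

theorem cnt_set {m R : ℕ} (hm : 1 ≤ m) (hR : 1 ≤ R) {G : Finset Edg} {y : ℝ} (hy : 0 < y)
    (hG : Grid ((4 * (2 * R) + 3) * m) m (2 * (2 * R) + 1) G)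
    (hC : ∀ q ∈ range (2 * (2 * R) + 1) ×ˢ range (2 * (2 * R) + 1),
      CtP (cen ((4 * (2 * R) + 3) * m) m q.1 q.2) y m G) :
    ∃ T : Finset Vtx, ((R : ℝ) / 4) ^ 2 * y ≤ (T.card : ℝ) ∧
      ∀ u ∈ T, nv u ≤ R * m ∧ Far u (4 * (R * m)) G := by
  classical
  obtain ⟨i0, hi0⟩ : ∃ i0 : ℕ, i0 = 2 * R := ⟨_, rfl⟩
  rw [← hi0] at hG hC
  obtain ⟨K, hKd⟩ : ∃ K : ℕ, K = 2 * i0 + 1 := ⟨_, rfl⟩
  obtain ⟨n, hn⟩ : ∃ n : ℕ, n = (4 * i0 + 3) * m := ⟨_, rfl⟩
  have hK : 4 * m * K + 2 * m ≤ 2 * n := by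
    rw [hKd, hn]
    apply le_of_eq
    ring
  rw [← hKd, ← hn] at hG hC
  obtain ⟨z, hz, hr⟩ := grid_meet hm hK hG
  have h1 : ∀ q : ℕ × ℕ, ∃ T : Finset Vtx, q ∈ range K ×ˢ range K →
      y ≤ (T.card : ℝ) ∧ ∀ u ∈ T, nv (u - cen n m q.1 q.2) ≤ m ∧ Far u (4 * m) G := by
    intro q
    by_cases hq : q ∈ range K ×ˢ range K
    · obtain ⟨T, h2, h3⟩ := CtP_set (hC q hq)
      exact ⟨T, fun _ => ⟨h2, h3⟩⟩
    · exact ⟨∅, fun h => absurd h hq⟩
  choose T hT using h1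
  have hcen : ∀ i j : ℕ, cen n m i j = (4 * (m : ℤ) * ((i : ℤ) - i0), 4 * (m : ℤ) * ((j : ℤ) - i0)) := by
    intro i j
    unfold Pool.Agent.Y244.PC.cen st
    rw [hn]
    push_cast
    ext <;> simp only <;> ring
  -- the reference vertex
  have hq0 : ((2 * i0, i0) : ℕ × ℕ) ∈ range K ×ˢ range K := by
    rw [Finset.mem_product, Finset.mem_range, Finset.mem_range]
    constructor <;> simp only <;> omega
  obtain ⟨u0, hu0⟩ : (T (2 * i0, i0)).Nonempty := by
    rw [← Finset.card_pos]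
    have := (hT _ hq0).1
    have h2 : (0 : ℝ) < ((T (2 * i0, i0)).card : ℝ) := lt_of_lt_of_le hy this
    exact_mod_cast h2
  have hu0' := (hT _ hq0).2 u0 hu0
  have hr0 : Reach (↑G) u0 z := (hr (2 * i0) i0 (by omega) (by omega) u0 hu0'.1 hu0'.2).mono
    Set.inter_subset_left
  have hu1 := hu0'.1
  simp only [hcen] at hu1
  obtain ⟨j0, hj0⟩ : ∃ j0 : ℕ, j0 = (R - 1) / 4 := ⟨_, rfl⟩
  have hj1 : 4 * j0 + 1 ≤ R := by omega
  have hj2 : R ≤ 4 * (j0 + 1) := by omega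
  obtain ⟨Q, hQ⟩ : ∃ Q : Finset (ℕ × ℕ), Q = Finset.Icc i0 (i0 + j0) ×ˢ Finset.Icc i0 (i0 + j0) :=
    ⟨_, rfl⟩
  have hQK : ∀ q ∈ Q, q ∈ range K ×ˢ range K := by
    intro q hq
    rw [hQ, Finset.mem_product, Finset.mem_Icc, Finset.mem_Icc] at hq
    rw [Finset.mem_product, Finset.mem_range, Finset.mem_range]
    omega
  refine ⟨Q.biUnion T, ?_, ?_⟩
  · rw [Finset.card_biUnion]
    · push_cast
      have hcard : Q.card = (j0 + 1) * (j0 + 1) := by
        rw [hQ, Finset.card_product, Nat.card_Icc]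
        congr 1 <;> omega
      have h5 : ((R : ℝ) / 4) ^ 2 * y ≤ ∑ q ∈ Q, y := by
        rw [Finset.sum_const, nsmul_eq_mul, hcard]
        apply mul_le_mul_of_nonneg_right _ hy.le
        have h6 : (R : ℝ) / 4 ≤ (j0 + 1 : ℝ) := by
          have : (R : ℝ) ≤ 4 * (j0 + 1) := by exact_mod_cast hj2
          linarith
        push_cast
        nlinarith [show (0 : ℝ) ≤ (R : ℝ) / 4 by positivity]
      exact h5.trans (Finset.sum_le_sum fun q hq => (hT q (hQK q hq)).1)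
    · intro q hq q' hq' hne
      show Disjoint (T q) (T q')
      rw [Finset.disjoint_left]
      intro u hu hu'
      have := cen_disj hm ((hT q (hQK q hq)).2 u hu).1 ((hT q' (hQK q' hq')).2 u hu').1
      exact hne (Prod.ext this.1 this.2)
  · intro u hu
    rw [Finset.mem_biUnion] at hu
    obtain ⟨q, hq, hu⟩ := hu
    obtain ⟨h2, h3⟩ := (hT q (hQK q hq)).2 u hu
    have hqK := hQK q hq
    rw [Finset.mem_product, Finset.mem_range, Finset.mem_range] at hqK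
    have hru : Reach (↑G) u z := (hr q.1 q.2 hqK.1 hqK.2 u h2 h3).mono Set.inter_subset_left
    rw [hQ, Finset.mem_product, Finset.mem_Icc, Finset.mem_Icc] at hq
    simp only [hcen] at h2
    have e1 : 0 ≤ 4 * (m : ℤ) * ((q.1 : ℤ) - i0) := by
      have : (0 : ℤ) ≤ (q.1 : ℤ) - i0 := by omega
      positivity
    have e2 : 0 ≤ 4 * (m : ℤ) * ((q.2 : ℤ) - i0) := by
      have : (0 : ℤ) ≤ (q.2 : ℤ) - i0 := by omega
      positivity
    have e3 : 4 * (m : ℤ) * ((q.1 : ℤ) - i0) ≤ 4 * m * j0 := by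
      apply mul_le_mul_of_nonneg_left _ (by positivity)
      omega
    have e4 : 4 * (m : ℤ) * ((q.2 : ℤ) - i0) ≤ 4 * m * j0 := by
      apply mul_le_mul_of_nonneg_left _ (by positivity)
      omega
    have e5 : 4 * (m : ℤ) * j0 + m ≤ R * m := by
      have : (4 * (j0 : ℤ) + 1) ≤ R := by exact_mod_cast hj1
      nlinarith
    have e6 : 4 * (m : ℤ) * ((2 * i0 : ℕ) - i0 : ℤ) = 8 * (R * m) := by
      rw [hi0]; push_cast; ring
    rw [e6] at hu1
    have e7 : (m : ℤ) ≤ R * m := by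
      have : (1 : ℤ) ≤ R := by exact_mod_cast hR
      nlinarith
    obtain ⟨M, hM⟩ : ∃ M : ℕ, M = R * m := ⟨_, rfl⟩
    have hMz : (R : ℤ) * m = M := by rw [hM]; push_cast; ring
    rw [hMz] at e5 e7 hu1
    rw [← hM]
    unfold nv at h2 hu1
    simp only [Prod.fst_sub, Prod.snd_sub] at h2 hu1
    refine ⟨?_, u0, ?_, hru.trans hr0.symm⟩
    · unfold nv
      omega
    · unfold nv
      simp only [Prod.fst_sub, Prod.snd_sub]
      omega

theorem grid_prob {p κ c y : ℝ} {m i0 : ℕ} (hm : 1 ≤ m) (hW : H12S.Win p κ (4 * m)) (hc : 0 < c)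
    (hct : ∀ S : Finset Edg, boxE (5 * m) ⊆ S → c ≤ Pr (fun _ => p) S (fun F => y ≤ Yc m F))
    {S : Finset Edg} (hS : boxE ((4 * i0 + 3) * m + 2 * m) ⊆ S) :
    (κ ^ 4 * c) ^ ((2 * i0 + 1) ^ 2) ≤
      Pr (fun _ => p) S (fun F => Grid ((4 * i0 + 3) * m) m (2 * i0 + 1) F ∧
        ∀ q ∈ range (2 * i0 + 1) ×ˢ range (2 * i0 + 1),
          CtP (cen ((4 * i0 + 3) * m) m q.1 q.2) y m F) := by
  classical
  have h0 : 0 ≤ p := by linarith [hW.lo]
  have h1 : p ≤ 1 := by linarith [hW.hi]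
  have ok := okq h0 h1
  have hk := hW.kpos
  have hk1 : κ ≤ 1 := by linarith [hW.kle]
  obtain ⟨K, hKd⟩ : ∃ K : ℕ, K = 2 * i0 + 1 := ⟨_, rfl⟩
  obtain ⟨n, hn⟩ : ∃ n : ℕ, n = (4 * i0 + 3) * m := ⟨_, rfl⟩
  have hK : 4 * m * K + 2 * m ≤ 2 * n := by
    rw [hKd, hn]
    apply le_of_eq
    ring
  rw [← hn] at hS
  have hSn : boxE n ⊆ S := (boxE_mono (by omega)).trans hS
  rw [← hn, ← hKd]
  obtain ⟨q0, hq0⟩ : ∃ q0 : ℝ, q0 = κ ^ K := ⟨_, rfl⟩
  have hq00 : 0 < q0 := by rw [hq0]; exact pow_pos hk _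
  have hstrip : q0 ≤ hh p (2 * (n : ℤ)) (2 * m) := by
    have hw := Pool.Agent.W424.NC.hh_long (hW.anti (show 2 * m ≤ 4 * m by omega)) (by omega) i0
    rw [hq0, hKd]
    refine hw.trans ?_
    have hn' : (n : ℤ) = (4 * i0 + 3) * m := by rw [hn]; push_cast; ring
    have hm' : (1 : ℤ) ≤ m := by exact_mod_cast hm
    have him : (0 : ℤ) ≤ (m : ℤ) * i0 := by positivity
    apply hh_mono h0 h1
    · omega
    · push_cast
      rw [hn']
      nlinarith
    · push_cast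
      omega
  have f1 := fkg_incr ok (S := S) (range (K + 1))
    (fun i => LRc (-(n : ℤ)) n (st n m i) (st n m i + 2 * m)) (fun i _ => LRc_incr _ _ _ _ _)
  have f2 := fkg_incr ok (S := S) (range (K + 1))
    (fun i => TBc (st n m i) (st n m i + 2 * m) (-(n : ℤ)) n) (fun i _ => TBc_incr _ _ _ _ _)
  have f3 := fkg_incr ok (S := S) (range K ×ˢ range K)
    (fun q => CtP (cen n m q.1 q.2) y m) (fun q _ => CtP_incr _ _ _ _)
  have g1 := (Pool.Agent.Y244.PC.pow_card_le_prod (range (K + 1)) _ hq00.le (fun i hi => by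
      have hi' : i ≤ K := by rw [Finset.mem_range] at hi; omega
      have a1 := st_ge n m i
      have a3 := st_le hK hi'
      have k1 : LRE (-(n : ℤ)) n (st n m i) (st n m i + 2 * m) ⊆ S := by
        refine LRE_subset_RE.trans (Finset.Subset.trans ?_ hSn)
        unfold boxE
        exact RE_subset le_rfl le_rfl a1 a3
      rw [pr_LRc p k1]
      refine hstrip.trans (le_of_eq ?_)
      congr 1 <;> ring)).trans f1
  have g2 := (Pool.Agent.Y244.PC.pow_card_le_prod (range (K + 1)) _ hq00.le (fun i hi => by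
      have hi' : i ≤ K := by rw [Finset.mem_range] at hi; omega
      have a1 := st_ge n m i
      have a3 := st_le hK hi'
      have k1 : TBE (st n m i) (st n m i + 2 * m) (-(n : ℤ)) n ⊆ S := by
        refine TBE_subset_RE.trans (Finset.Subset.trans ?_ hSn)
        unfold boxE
        exact RE_subset a1 a3 le_rfl le_rfl
      rw [pr_TBc p k1]
      refine hstrip.trans (le_of_eq ?_)
      congr 1 <;> ring)).trans f2
  have g3 := (Pool.Agent.Y244.PC.pow_card_le_prod (range K ×ˢ range K) _ hc.le (fun q hq => by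
      rw [Finset.mem_product, Finset.mem_range, Finset.mem_range] at hq
      have k1 : Pr (fun _ => p) S (CtP (cen n m q.1 q.2) y m) =
          Pr (fun _ => p) (sh (cen n m q.1 q.2) S) (fun F => y ≤ Yc m F) :=
        Ex_sh p (cen n m q.1 q.2) S (fun F => ind (y ≤ Yc m F))
      rw [k1]
      apply hct
      rw [← sh_bo (cen n m q.1 q.2) (5 * m)]
      apply sh_mono
      exact (cen_bo hK hq.1 hq.2).trans hS)).trans f3
  rw [Finset.card_range] at g1 g2
  rw [Finset.card_product, Finset.card_range] at g3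
  have i1 : IncrE S (fun F => ∀ i ∈ range (K + 1),
      LRc (-(n : ℤ)) n (st n m i) (st n m i + 2 * m) F) :=
    fun F G hFG hG h i hi => (h i hi).mono hFG
  have i2 : IncrE S (fun F => ∀ i ∈ range (K + 1),
      TBc (st n m i) (st n m i + 2 * m) (-(n : ℤ)) n F) :=
    fun F G hFG hG h i hi => (h i hi).mono hFG
  have i3 : IncrE S (fun F => ∀ q ∈ range K ×ˢ range K, CtP (cen n m q.1 q.2) y m F) :=
    fun F G hFG hG h q hq => CtP_incr S _ _ _ F G hFG hG (h q hq)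
  have j1 := Pr_harris ok i1 i2
  have i12 : IncrE S (Grid n m K) :=
    fun F G hFG hG h => ⟨i1 F G hFG hG h.1, i2 F G hFG hG h.2⟩
  have j2 := Pr_harris ok i12 i3
  have p1 : 0 ≤ q0 ^ (K + 1) := pow_nonneg hq00.le _
  have p3 : 0 ≤ c ^ (K * K) := pow_nonneg hc.le _
  have k1 : q0 ^ (K + 1) * q0 ^ (K + 1) ≤ Pr (fun _ => p) S (Grid n m K) :=
    (mul_le_mul g1 g2 p1 (p1.trans g1)).trans j1
  have k2 := (mul_le_mul k1 g3 p3 ((mul_nonneg p1 p1).trans k1)).trans j2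
  refine le_trans ?_ k2
  rw [hq0, mul_pow, ← pow_mul, ← pow_mul, ← pow_add, sq K]
  apply mul_le_mul_of_nonneg_right _ p3
  apply pow_le_pow_of_le_one hk.le hk1
  have hK1 : 1 ≤ K := by omega
  nlinarith

theorem bo_sub_bo {x z : Vtx} {r R k : ℕ} (h : nv (x - z) ≤ k) (hr : r + k ≤ R) :
    bo x r ⊆ bo z R := by
  unfold nv at h
  simp only [Prod.fst_sub, Prod.snd_sub] at h
  unfold bo
  apply RE_subset <;> omega

theorem Hc_loc {y : ℝ} {z : Vtx} {m : ℕ} {F : Finset Edg} :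
    Hc y z m F ↔ Hc y z m (F ∩ bo z (5 * m)) := by
  have hb : bo z (3 * m) ⊆ bo z (5 * m) := by
    unfold bo
    apply RE_subset <;> push_cast <;> omega
  unfold Hc
  refine and_congr ?_ ?_
  · constructor
    · intro h
      exact CA_incr (F ∩ bo z (5 * m)) z m (3 * m) _ _
        (Finset.inter_subset_inter_left hb) (Finset.Subset.refl _) (CA_loc (by omega) h)
    · intro h
      exact CA_incr F z m (3 * m) _ _ Finset.inter_subset_left (Finset.Subset.refl _) h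
  · have e : ∑ x ∈ bxz z m, ind (Far x (4 * m) F) =
        ∑ x ∈ bxz z m, ind (Far x (4 * m) (F ∩ bo z (5 * m))) := by
      apply Finset.sum_congr rfl
      intro x hx
      apply ind_congr
      have hx' : nv (x - z) ≤ m := by
        unfold bxz at hx
        rw [Finset.mem_product, Finset.mem_Icc, Finset.mem_Icc] at hx
        unfold nv
        simp only [Prod.fst_sub, Prod.snd_sub]
        omega
      constructor
      · rintro ⟨v, h1, h2⟩
        obtain ⟨w, h3, h4⟩ := ex_out (z := x) (R := 4 * m) (by simp [nv]) h2 h1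
        refine ⟨w, h3, h4.mono ?_⟩
        rw [Finset.coe_inter]
        apply Set.inter_subset_inter_right
        exact_mod_cast bo_sub_bo hx' (by omega)
      · intro h
        exact Far.mono_F Finset.inter_subset_left h
    rw [e]

theorem a_CNT : S_CNT := by
  classical
  intro κ a H hκ ha hH
  obtain ⟨c0, hc0, -, hct⟩ := count_p ha
  obtain ⟨ρ, hρ⟩ := pow_unbounded_of_one_lt (max ((32 * H / a) ^ (48 / 5 : ℝ)) 4)
    (show (1 : ℝ) < 2 by norm_num)
  obtain ⟨R, hR⟩ : ∃ R : ℕ, R = 2 ^ ρ := ⟨_, rfl⟩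
  have hRr : (R : ℝ) = 2 ^ ρ := by rw [hR]; push_cast; rfl
  rw [← hRr] at hρ
  have hR4 : (4 : ℝ) ≤ R := ((le_max_right _ _).trans hρ.le)
  have hR1 : 1 ≤ R := by
    have : (1 : ℝ) ≤ R := by linarith
    exact_mod_cast this
  have hRH : 32 * H / a ≤ (R : ℝ) ^ (5 / 48 : ℝ) := by
    have h1 : ((32 * H / a) ^ (48 / 5 : ℝ)) ^ (5 / 48 : ℝ) ≤ (R : ℝ) ^ (5 / 48 : ℝ) := by
      apply Real.rpow_le_rpow (by positivity) ((le_max_left _ _).trans hρ.le) (by norm_num)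
    rw [← Real.rpow_mul (by positivity)] at h1
    norm_num at h1
    exact h1
  obtain ⟨c, hc⟩ : ∃ c : ℝ, c = κ ^ 4 * (κ ^ 4 * c0) ^ ((2 * (2 * R) + 1) ^ 2) := ⟨_, rfl⟩
  have hc1 : 0 < c := by rw [hc]; positivity
  refine ⟨ρ, min 1 c, lt_min one_pos hc1, min_le_left _ _, ?_⟩
  intro p m' m hm' hm hNW z S hS
  refine (min_le_right _ _).trans ?_
  rw [← hR] at hm
  have hW := hNW.win
  have q0 : 0 ≤ p := by linarith [hNW.lo]
  have q1 : p ≤ 1 := by linarith [hNW.hi]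
  have ok := okq q0 q1
  have hm1 : m' ≤ m := by rw [hm]; exact Nat.le_mul_of_pos_left _ (by omega)
  obtain ⟨y, hy⟩ : ∃ y : ℝ, y = a / 2 * (m' : ℝ) ^ (91 / 48 : ℝ) := ⟨_, rfl⟩
  have hm'0 : (0 : ℝ) < m' := by exact_mod_cast hm'
  have hy0 : 0 < y := by rw [hy]; positivity
  obtain ⟨M, hM⟩ : ∃ M : ℕ, M = (4 * (2 * R) + 3) * m' + 2 * m' := ⟨_, rfl⟩
  obtain ⟨U, hU⟩ : ∃ U : Finset Edg, U = S ∪ bo z M := ⟨_, rfl⟩
  have hSU : S ⊆ U := by rw [hU]; exact Finset.subset_union_left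
  have hBU : bo z M ⊆ U := by rw [hU]; exact Finset.subset_union_right
  obtain ⟨Y, hY⟩ : ∃ Y : ℝ, Y = H * (m : ℝ) ^ (91 / 48 : ℝ) := ⟨_, rfl⟩
  rw [← hY]
  have e1 : Pr (fun _ => p) S (Hc Y z m) = Pr (fun _ => p) U (Hc Y z m) := by
    have l1 := Pr_local (p := fun _ => p) hS (A := Hc Y z m) (fun F _ => Hc_loc)
    have l2 := Pr_local (p := fun _ => p) (hS.trans hSU) (A := Hc Y z m) (fun F _ => Hc_loc)
    rw [l1, l2]
  rw [e1]
  have g1 : κ ^ 4 ≤ Pr (fun _ => p) U (CA z m (3 * m)) :=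
    pr_CAw hW (h := 2 * m) (by omega) (by omega) (by omega) (by omega)
      (Finset.Subset.trans (by unfold bo; apply RE_subset <;> push_cast <;> omega) (hS.trans hSU))
  have hct' : ∀ S : Finset Edg, boxE (5 * m') ⊆ S →
      c0 ≤ Pr (fun _ => p) S (fun F => y ≤ Yc m' F) := by
    rw [hy]
    exact hct p m' q0 hNW.hi hm' (hNW.arm (4 * m') (by omega) (by omega))
  have g2 := grid_prob (i0 := 2 * R) hm' (hW.anti (show 4 * m' ≤ 100 * m by omega)) hc0 hct'
    (S := sh z U) (by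
      rw [← hM, ← sh_bo z M]
      exact sh_mono hBU)
  obtain ⟨GG, hGG⟩ : ∃ GG : Finset Edg → Prop, GG = (fun F =>
      Grid ((4 * (2 * R) + 3) * m') m' (2 * (2 * R) + 1) F ∧
        ∀ q ∈ range (2 * (2 * R) + 1) ×ˢ range (2 * (2 * R) + 1),
          CtP (cen ((4 * (2 * R) + 3) * m') m' q.1 q.2) y m' F) := ⟨_, rfl⟩
  rw [← hGG] at g2
  have e2 : Pr (fun _ => p) U (fun F => GG (sh z F)) = Pr (fun _ => p) (sh z U) GG :=
    Ex_sh p z U (fun F => ind (GG F))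
  rw [← e2] at g2
  have i2 : IncrE U (fun F => GG (sh z F)) := by
    intro F G hFG _ h
    rw [hGG] at h ⊢
    have hs : sh z F ⊆ sh z G := sh_mono hFG
    refine ⟨⟨fun i hi => (h.1.1 i hi).mono hs, fun i hi => (h.1.2 i hi).mono hs⟩,
      fun q hq => le_trans (h.2 q hq) (Yc_mono (sh_mono hs))⟩
  have j := Pr_harris ok (CA_incr U z m (3 * m)) i2
  have k1 : c ≤ Pr (fun _ => p) U (fun F => CA z m (3 * m) F ∧ GG (sh z F)) := by
    rw [hc]
    refine le_trans ?_ j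
    apply mul_le_mul g1 g2 (by positivity)
    exact le_trans (by positivity) g1
  refine k1.trans (Pr_mono ok ?_)
  rintro F _ ⟨h1, h2⟩
  rw [hGG] at h2
  refine ⟨h1, ?_⟩
  obtain ⟨T, t1, t2⟩ := cnt_set hm' hR1 hy0 h2.1 h2.2
  have hy1 : H * (m : ℝ) ^ (91 / 48 : ℝ) ≤ ((R : ℝ) / 4) ^ 2 * y := by
    have hmr : (m : ℝ) = R * m' := by rw [hm]; push_cast; ring
    have hR0 : (0 : ℝ) < R := by linarith
    rw [hmr, hy, Real.mul_rpow hR0.le hm'0.le]
    have e3 : (R : ℝ) ^ 2 = (R : ℝ) ^ (91 / 48 : ℝ) * (R : ℝ) ^ (5 / 48 : ℝ) := by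
      rw [← Real.rpow_natCast (R : ℝ) 2, ← Real.rpow_add hR0]
      norm_num
    have e4 : H ≤ a / 32 * (R : ℝ) ^ (5 / 48 : ℝ) := by
      rw [div_le_iff₀ ha] at hRH
      nlinarith
    calc H * ((R : ℝ) ^ (91 / 48 : ℝ) * (m' : ℝ) ^ (91 / 48 : ℝ))
        ≤ a / 32 * (R : ℝ) ^ (5 / 48 : ℝ) * ((R : ℝ) ^ (91 / 48 : ℝ) * (m' : ℝ) ^ (91 / 48 : ℝ)) :=
          mul_le_mul_of_nonneg_right e4 (by positivity)
      _ = (R : ℝ) ^ 2 / 16 * (a / 2 * (m' : ℝ) ^ (91 / 48 : ℝ)) := by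
          rw [e3]; ring
      _ = _ := by ring
  rw [hY]
  refine hy1.trans (t1.trans ?_)
  have hT : T.map (addRightEmbedding z) ⊆ bxz z m := by
    intro x hx
    rw [Finset.mem_map] at hx
    obtain ⟨w, hw, rfl⟩ := hx
    have h3 := (t2 w hw).1
    rw [← hm] at h3
    unfold nv at h3
    unfold bxz
    rw [Finset.mem_product, Finset.mem_Icc, Finset.mem_Icc]
    simp only [addRightEmbedding_apply, Prod.fst_add, Prod.snd_add]
    omega
  calc (T.card : ℝ) = ∑ x ∈ T.map (addRightEmbedding z), ind (Far x (4 * m) F) := by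
        rw [Finset.sum_congr rfl (g := fun _ => (1 : ℝ))]
        · rw [Finset.sum_const, nsmul_eq_mul, mul_one, Finset.card_map]
        · intro x hx
          rw [Finset.mem_map] at hx
          obtain ⟨w, hw, rfl⟩ := hx
          have h3 := (t2 w hw).2
          rw [← hm] at h3
          exact ind_of (Far_sh.mp h3)
    _ ≤ ∑ x ∈ bxz z m, ind (Far x (4 * m) F) :=
        Finset.sum_le_sum_of_subset_of_nonneg hT (fun x _ _ => ind_nonneg _)

end Q78.FE
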