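import Pool.Agent.H362P.Base
import Pool.Agent.H12R2.Sep.Defs

/-!
Project FE (helper78): the law of the cluster size at and below the critical point, pointwise
(bond percolation on the square lattice). Definitions.
-/

set_option autoImplicit false

namespace Q78.FE

open Finset H974 Pool.Agent.H160R2.CV Pool.Agent.H160R2.CV.Quad H362P

/-! ### Characteristic functions -/

/-- Expectation of a complex function of a random subset. -/
noncomputable def CEx {E : Type*} [DecidableEq E] (p : E → ℝ) (S : Finset E)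
    (f : Finset E → ℂ) : ℂ :=
  ∑ F ∈ S.powerset, (((∏ e ∈ F, p e) * ∏ e ∈ S \ F, (1 - p e) : ℝ) : ℂ) * f F

/-- `exp (i t)` -/
noncomputable def ei (t : ℝ) : ℂ := Complex.exp (t * Complex.I)

/-! ### The cluster -/

open Classical in
/-- The number of the vertices of `[-n, n]²` connected to `o`. -/
noncomputable def Sz (n : ℕ) (o : Vtx) (F : Finset Edg) : ℕ :=
  ((bx n).filter (fun v => Reach (↑F) o v)).card

/-- The vertices at distance at most `n` from `z`. -/
noncomputable def bxz (z : Vtx) (n : ℕ) : Finset Vtx :=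
  Finset.Icc (z.1 - n) (z.1 + n) ×ˢ Finset.Icc (z.2 - n) (z.2 + n)

/-! ### Gadgets -/

/-- The block of the gadget at `z`. -/
noncomputable def Bl (z : Vtx) (u : ℕ) : Finset Edg := bo z (2 * u)

/-- The annulus of the gadget. -/
noncomputable def An (z : Vtx) (u : ℕ) : Finset Edg := bo z (9 * u) \ bo z (2 * u)

/-- `w` is the inner end of a radial path in the annulus. -/
def Rad (z : Vtx) (u : ℕ) (F : Finset Edg) (w : Vtx) : Prop :=
  nv (w - z) ≤ 3 * u ∧ ∃ v : Vtx, 9 * u ≤ nv (v - z) ∧ Reach (↑F ∩ ↑(An z u)) w v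

/-- The gadget event: an open circuit in the annulus of radii `3u`, `9u`. -/
def Gd (z : Vtx) (u : ℕ) (F : Finset Edg) : Prop := CA z (3 * u) (9 * u) F

/-- The link event: an open circuit in the annulus of radii `30u`, `90u`, and an open path from
the boundary of the block to distance `90u`, outside the block. -/
def Lk (z : Vtx) (u : ℕ) (F : Finset Edg) : Prop :=
  CA z (30 * u) (90 * u) F ∧ ∃ w v : Vtx, nv (w - z) ≤ 2 * u ∧ 90 * u ≤ nv (v - z) ∧
    Reach (↑F ∩ ↑(bo z (90 * u) \ bo z (2 * u))) w v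

/-- `v` is connected, inside the box of radius `9u`, to a radial path of the annulus. -/
def Hb (z : Vtx) (u : ℕ) (F : Finset Edg) (v : Vtx) : Prop :=
  ∃ w, Rad z u F w ∧ Reach (↑F ∩ ↑(bo z (9 * u))) w v

/-- The number of these vertices. -/
noncomputable def Yz (z : Vtx) (u : ℕ) (F : Finset Edg) : ℝ :=
  ∑ v ∈ bxz z (9 * u), ind (Hb z u F v)

/-- The number of these vertices at distance at most `m` from `z`. -/
noncomputable def Yi (z : Vtx) (u m : ℕ) (F : Finset Edg) : ℝ :=
  ∑ v ∈ bxz z m, ind (Hb z u F v)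

/-- The characteristic function of `Yz`, averaged over the block. -/
noncomputable def wt (p θ : ℝ) (z : Vtx) (u : ℕ) (F : Finset Edg) : ℝ :=
  ‖CEx (fun _ => p) (Bl z u) (fun G => ei (θ * Yz z u ((F \ Bl z u) ∪ G)))‖

open Classical in
/-- The weight of a linked gadget. -/
noncomputable def WW (p θ : ℝ) (z : Vtx) (u : ℕ) (F : Finset Edg) : ℝ :=
  if Gd z u F ∧ Lk z u F then wt p θ z u F else 1

/-- The gadget at `z` is attached to the cluster of `o`. -/
def att (o z : Vtx) (u : ℕ) (F : Finset Edg) : Prop :=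
  Gd z u F ∧ ∃ w, Rad z u F w ∧ Reach (↑F) o w

open Classical in
/-- The weight of an attached gadget. -/
noncomputable def wa (p θ : ℝ) (o z : Vtx) (u : ℕ) (F : Finset Edg) : ℝ :=
  if att o z u F then wt p θ z u F else 1

/-! ### Sides of a box reached by the cluster -/

/-- The cluster of `o` in the box `[-R, R]²` reaches the right, left, top, bottom side. -/
def fl (R : ℕ) (o : Vtx) (i : Fin 4) (F : Finset Edg) : Prop :=
  ∃ v : Vtx, (match i with
    | 0 => v.1 = (R : ℤ)
    | 1 => v.1 = -(R : ℤ)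
    | 2 => v.2 = (R : ℤ)
    | 3 => v.2 = -(R : ℤ)) ∧ Reach (↑F ∩ ↑(boxE R)) o v

/-- The number of these sides. -/
noncomputable def nfl (R : ℕ) (o : Vtx) (F : Finset Edg) : ℝ := ∑ i : Fin 4, ind (fl R o i F)

/-- The weight: `1` divided by the number of sides if the right side is reached, `0`
otherwise. -/
noncomputable def gg (R : ℕ) (o : Vtx) (F : Finset Edg) : ℝ := ind (fl R o 0 F) / nfl R o F

/-- The centres of the gadgets of size `u` in the strip `[s, 5s] × [-9s, 9s]`. -/
noncomputable def Jz (s u : ℕ) : Finset Vtx := by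
  classical
  exact (bx (9 * s)).filter (fun z =>
    (∃ i j : ℤ, z = (20 * (u : ℤ) * i + 10 * u, 20 * (u : ℤ) * j + 10 * u)) ∧
    (s : ℤ) + 9 * u ≤ z.1 ∧ z.1 + 9 * u ≤ 5 * s ∧ -(9 * (s : ℤ)) + 9 * u ≤ z.2 ∧
    z.2 + 9 * u ≤ 9 * s)

/-! ### Exploration of the rectangle `[a, b] × [c, d]` from below

Faces are pairs of integers, as in `Pool.Agent.H974R2.Lattice`. -/

/-- The faces above the bottom line. -/
noncomputable def T0 (a b c d : ℤ) : Finset Vtx := Finset.Ico a b ×ˢ Finset.Icc c d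

/-- The edges with both sides in `T`. -/
noncomputable def inT (a b c d : ℤ) (T : Finset Vtx) : Finset Edg :=
  (LRE a b c d).filter (fun e => dsrc e ∈ T ∧ dtgt e ∈ T)

/-- The edges with no side in `T`. -/
noncomputable def exT (a b c d : ℤ) (T : Finset Vtx) : Finset Edg :=
  (LRE a b c d).filter (fun e => dsrc e ∉ T ∧ dtgt e ∉ T)

/-- The edges with exactly one side in `T`. -/
noncomputable def bdT (a b c d : ℤ) (T : Finset Vtx) : Finset Edg :=
  (LRE a b c d).filter (fun e => ¬ (dsrc e ∈ T ↔ dtgt e ∈ T))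

open Classical in
/-- The faces of `T` connected to the boundary of `T` by closed dual paths inside `T`. -/
noncomputable def KK (a b c d : ℤ) (T : Finset Vtx) (F : Finset Edg) : Finset Vtx :=
  T.filter (fun f => ∃ f0 ∈ T, (∃ e ∈ bdT a b c d T, dsrc e = f0 ∨ dtgt e = f0) ∧
    DReach (↑(inT a b c d T) \ ↑F) f0 f)

open Classical in
/-- The faces of `T` outside `KK` which are connected to the top outside `KK`. -/
noncomputable def PH (a b c d : ℤ) (T : Finset Vtx) (F : Finset Edg) : Finset Vtx :=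
  (T \ KK a b c d T F).filter (fun f => ∃ x : ℤ, a ≤ x ∧ x < b ∧
    (x, d) ∈ T \ KK a b c d T F ∧
    DReach (↑(inT a b c d (T \ KK a b c d T F))) (x, d) f)

/-- The successive unexplored regions. -/
noncomputable def Tn (a b c d : ℤ) (F : Finset Edg) : ℕ → Finset Vtx
  | 0 => T0 a b c d
  | j + 1 => PH a b c d (Tn a b c d F j) F

/-- The exploration has not reached the top in its first `j` steps. -/
def Alive (a b c d : ℤ) (j : ℕ) (F : Finset Edg) : Prop :=
  ∀ i < j, ∀ x : ℤ, a ≤ x → x < b → (x, d) ∉ KK a b c d (Tn a b c d F i) F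

/-- Regions which can occur. -/
structure Reg (a b c d : ℤ) (T : Finset Vtx) : Prop where
  sub : T ⊆ T0 a b c d
  top : ∀ x : ℤ, a ≤ x → x < b → (x, d) ∈ T
  conT : ∀ f ∈ T, ∃ x : ℤ, a ≤ x ∧ x < b ∧ DReach (↑(inT a b c d T)) (x, d) f
  conC : ∀ f : Vtx, a ≤ f.1 → f.1 < b → c - 1 ≤ f.2 → f.2 ≤ d → f ∉ T →
    ∃ x : ℤ, a ≤ x ∧ x < b ∧ DReach (↑(exT a b c d T)) (x, c - 1) f

/-- The faces next to the edges of the box of radius `9u` around `z` are in `T`. -/
def Dbx (z : Vtx) (u : ℕ) (T : Finset Vtx) : Prop :=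
  ∀ f : Vtx, z.1 - 9 * u - 1 ≤ f.1 → f.1 ≤ z.1 + 9 * u → z.2 - 9 * u - 1 ≤ f.2 →
    f.2 ≤ z.2 + 9 * u → f ∈ T

/-! ### The near-critical window -/

/-- Crossing probabilities and one-arm probabilities are as at the critical point, up to
distance `N`. -/
structure NW (κ a p : ℝ) (N : ℕ) : Prop where
  lo : 1 / 4 ≤ p
  hi : p ≤ 1 / 2
  win : H12S.Win p κ N
  arm : ∀ k : ℕ, 1 ≤ k → k ≤ N → a * (k : ℝ) ^ (-(5 / 48 : ℝ)) ≤ arm p k

/-- `k0` is a good ratio between the size of the block and the size of the mass box. -/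
def K0P (k0 : ℕ) : Prop := 3 ≤ k0 ∧ ∀ p : ℝ, 0 ≤ p → p ≤ 1 / 2 → ∀ m : ℕ, 1 ≤ m → ∀ (z : Vtx)
  (S : Finset Edg), Pr (fun _ => p) S (Cr z m (2 * k0 * m)) ≤ 1 / 2

/-- The probability that the cluster of the origin (in the box `[-n,n]²`) has exactly `k` vertices
and reaches a side of the box `[-8s, 8s]²` inside this box. -/
noncomputable def HH (p : ℝ) (n s k : ℕ) : ℝ :=
  Pr (fun _ => p) (boxE n) (fun F => Sz n (0, 0) F = k ∧ ∃ i, fl (8 * s) (0, 0) i F)

/-- The law of the cluster size. -/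
noncomputable def pf (p : unitInterval) (N : ℕ) : ℝ :=
  (bondLaw p).real {ω | (cluster0 ω).encard = N}

end Q78.FE
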