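import Pool.Agent.Q78.FE.Def

/-!
Project FE (helper78): definitions for the lower bound of the law of the cluster size.
-/

set_option autoImplicit false

namespace Q78.FE

open Finset H974 Pool.Agent.H160R2.CV Pool.Agent.H160R2.CV.Quad H362P

/-- The centre of the cell `(i, j)`. -/
def cz (u : ℕ) (i j : ℤ) : Vtx := (200 * (u : ℤ) * i, 200 * (u : ℤ) * j)

/-- The conditional probability, given the configuration outside the block, that a vertex at
distance at most `m` from `z` is connected to a radial path. -/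
noncomputable def hz (p : ℝ) (z : Vtx) (u m : ℕ) (F : Finset Edg) : ℝ :=
  Pr (fun _ => p) (Bl z u) (fun G => ∃ v : Vtx, nv (v - z) ≤ m ∧ Hb z u ((F \ Bl z u) ∪ G) v)

/-- The horizontal link from the cell at `z` to the next cell. -/
def Lh (z : Vtx) (u : ℕ) (F : Finset Edg) : Prop :=
  LRc (z.1 + 3 * u) (z.1 + 197 * u) z.2 (z.2 + 20 * u) F

/-- The vertical link from the cell at `z` to the next cell. -/
def Lv (z : Vtx) (u : ℕ) (F : Finset Edg) : Prop :=
  TBc z.1 (z.1 + 20 * u) (z.2 + 3 * u) (z.2 + 197 * u) F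

/-- The event of a cell. -/
def Vz (c p : ℝ) (z : Vtx) (u m : ℕ) (F : Finset Edg) : Prop :=
  Gd z u F ∧ Lk z u F ∧ c ≤ hz p z u m F ∧ Lh z u F ∧ Lv z u F

/-- The events of all the cells of the array. -/
def Ar (c p : ℝ) (u m L : ℕ) (F : Finset Edg) : Prop :=
  ∀ i j : ℤ, -(L : ℤ) ≤ i → i ≤ 1 → -(L : ℤ) ≤ j → j ≤ L → Vz c p (cz u i j) u m F

/-- The array, and no crossing of a thick annulus. -/
noncomputable def Wo (c p : ℝ) (k0 u m L s : ℕ) (F : Finset Edg) : ℝ :=
  ind (Ar c p u m L F ∧ ¬ Cr (0, 0) (10 * s) (2 * k0 * (10 * s)) F)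

/-- The array, the arm of the origin and no crossing of a thick annulus. -/
noncomputable def Wt (c p : ℝ) (k0 u m L s : ℕ) (F : Finset Edg) : ℝ :=
  ind (Ar c p u m L F ∧ Arm (100 * u) F ∧ ¬ Cr (0, 0) (10 * s) (2 * k0 * (10 * s)) F)

/-- The long crossing. -/
def HR (u T s : ℕ) (F : Finset Edg) : Prop := LRc (100 * (u : ℤ)) (8 * s) 0 (2 * T * u) F

/-- The part of the high event which only looks at the block. -/
def Hc (y : ℝ) (z : Vtx) (m : ℕ) (F : Finset Edg) : Prop :=
  CA z m (3 * m) F ∧ y ≤ ∑ x ∈ bxz z m, ind (Far x (4 * m) F)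

/-- The high event: the gadget has at least `y` vertices. -/
def Hi (y : ℝ) (z : Vtx) (u m : ℕ) (F : Finset Edg) : Prop :=
  (∃ v : Vtx, nv (v - z) ≤ m ∧ Hb z u F v) ∧ Hc y z m F

/-- The conditional probability of the high event. -/
noncomputable def pz (p y : ℝ) (z : Vtx) (u m : ℕ) (F : Finset Edg) : ℝ :=
  Pr (fun _ => p) (Bl z u) (fun G => Hi y z u m ((F \ Bl z u) ∪ G))

/-- The density of the high state. -/
noncomputable def et (p y : ℝ) (z : Vtx) (u m : ℕ) (F : Finset Edg) : ℝ :=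
  ind (Hi y z u m F) / pz p y z u m F

/-- The centre of the `k`-th gadget. -/
def gk (u L k : ℕ) : Vtx :=
  cz u (-((k / (2 * L + 1) : ℕ) : ℤ) - 1) (((k % (2 * L + 1) : ℕ) : ℤ) - L)

/-- The weight in which the first `J` gadgets are in the high state. -/
noncomputable def QJ (c y p : ℝ) (k0 u m L s J : ℕ) (F : Finset Edg) : ℝ :=
  Wt c p k0 u m L s F * ∏ k ∈ range J, et p y (gk u L k) u m F

/-- The parameters. -/
structure Pm (k0 T m u s L : ℕ) : Prop where
  k3 : 3 ≤ k0
  T32 : 32 ≤ T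
  m1 : 1 ≤ m
  hu : u = k0 * m
  hs : s = 20 * T * u
  hL : L = T / 20

/-- The events of the cells have probability at least `c`. -/
def VP (c p : ℝ) (u m : ℕ) : Prop := 0 < c ∧ c ≤ 1 ∧ ∀ (z : Vtx) (S : Finset Edg),
  bo z (197 * u) ⊆ S → c ≤ Pr (fun _ => p) S (Vz c p z u m)

end Q78.FE
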