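import Pool.Agent.Q78.FE.Up
import Pool.Agent.Q277.FE.LOCV
import Pool.Agent.Q125.FE.Hig
import Pool.Agent.Q277.FE.VP
import Pool.Agent.Q277.FE.TY
import Pool.Agent.Q277.FE.SUM
import Pool.Agent.Q277.FE.HUB
import Pool.Agent.Q125.FE.Conk
import Pool.Agent.Q125.FE.Locw
import Pool.Agent.Q289.FE.HYBW
import Pool.Agent.Q289.FE.FIN
import Pool.Agent.Q125.FE.Sml
import Pool.Agent.Q75.FE.LOW
import Pool.Agent.Q75.FE.Gen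
import Pool.Agent.Q75.FE.EXJ

/-!
Project FE (helper78): assembly of part 2 (lower bound).
-/

set_option autoImplicit false

namespace Q78.FE

theorem a_LOC : S_LOC := Pool.Agent.Q239.FE.t_LOC

theorem a_LOCV : S_LOCV := Q277.FE.t_LOCV a_LOC

theorem a_HIG : S_HIG := Pool.Agent.Q125.FE.Hig.t_HIG a_LOC

theorem a_VP : S_VP := Q277.FE.t_VP a_LOC

theorem a_CONK : S_CONK := Pool.Agent.Q125.FE.t_CONK a_LOC Q277.FE.t_HUB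

theorem a_LOCW : S_LOCW := Pool.Agent.Q125.FE.Locw.t_LOCW a_LOC Q75.FE.t_LOCM a_LOCV

theorem a_HYBW : S_HYBW :=
  Q289.FE.t_HYBW a_LOC Pool.Agent.Q239.FE.t_ADD Q75.FE.t_HYB a_LOCV a_HIG a_CONK Q277.FE.t_SUM

theorem a_EXJ (hMASS : S_MASS) (hPHR : S_PHR) (hCNT : S_CNT) : S_EXJ :=
  Q75.FE.t_EXJ a_LOC a_HYBW a_LOCW Q277.FE.TY.t_TY hMASS hPHR hCNT a_VP

theorem a_FIN (hMASS : S_MASS) (hPHR : S_PHR) (hCNT : S_CNT) : S_FIN :=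
  Q289.FE.t_FIN (a_EXJ hMASS hPHR hCNT) a_HYBW a_FOUR Pool.Agent.Q14.FE.t_INV a_CONK Q75.FE.t_SMO
    Q222.FE.INF.t_INF a_LOCW hPHR

theorem a_LOW (hMASS : S_MASS) (hPHR : S_PHR) (hCNT : S_CNT) : S_LOW :=
  Q75.FE.t_LOW Q222.FE.t_K0 (a_FIN hMASS hPHR hCNT) (Pool.Agent.Q125.FE.Sml.t_SML Q222.FE.INF.t_INF)

end Q78.FE
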