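import Pool.Agent.Q78.FE.Stm2
import Pool.Agent.W424.NC.ArmLow

/-! Project FE, part I-PHR: the probability of the long crossing. -/

set_option autoImplicit false

namespace Q78.FE

open Finset H974 Pool.Agent.H160R2.CV Pool.Agent.H160R2.CV.Quad H362P

theorem a_PHR : S_PHR := by
  intro k0 T m u s L hP κ a p hN n hn
  obtain ⟨h3, h32, hm1, hu, hs, hL⟩ := hP
  have hu1 : 1 ≤ u := by rw [hu]; exact Nat.mul_pos (by omega) hm1
  have q0 : 0 ≤ p := by linarith [hN.lo]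
  have q1 : p ≤ 1 := by linarith [hN.hi]
  have hT1 : 1 ≤ T * u := Nat.mul_pos (by omega) hu1
  obtain ⟨w, hw⟩ : ∃ w : ℕ, w = T * u := ⟨_, rfl⟩
  have hsw : s = 20 * w := by rw [hs, hw]; ring
  have huw : 32 * u ≤ w := by rw [hw]; exact Nat.mul_le_mul_right u h32
  have hn2 : 60 * s ≤ n := le_trans (by nlinarith) hn
  have hW : H12S.Win p κ (2 * w) :=
    ⟨hN.win.kpos, hN.win.kle, hN.win.lo, hN.win.hi,
      fun h h1 h2 => hN.win.pri h h1 (by omega), fun h h1 h2 => hN.win.dua h h1 (by omega)⟩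
  have g := Pool.Agent.W424.NC.hh_long hW (by omega) 5
  have e1 : HR u T s = LRc (100 * (u : ℤ)) (8 * s) 0 ((2 * w : ℕ) : ℤ) := by
    unfold HR
    have : (2 * (T : ℤ) * u) = ((2 * w : ℕ) : ℤ) := by rw [hw]; push_cast; ring
    rw [this]
  have e2 : LRE (100 * (u : ℤ)) (8 * s) 0 ((2 * w : ℕ) : ℤ) ⊆ boxE n := by
    refine LRE_subset_RE.trans (RE_subset ?_ ?_ ?_ ?_) <;> push_cast <;> omega
  rw [e1, pr_LRc p e2]
  refine le_trans g (hh_mono q0 q1 ?_ ?_ ?_)
  · push_cast; omega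
  · push_cast; omega
  · push_cast; omega

end Q78.FE
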