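import Pool.Agent.Q78.FE.Up
import Pool.Agent.Q78.FE.Lo
import Pool.Agent.Q78.FE.Phr
import Pool.Agent.Q78.FE.Cnt
import Pool.Agent.Q125.FE.Mass

/-! Project FE: the two parts. -/

set_option autoImplicit false

namespace Q78.FE

theorem up : S_UP := a_UP

theorem a_MASS : S_MASS := Pool.Agent.Q125.FE.Mass.t_MASS a_LOC a_CONK a_LOCW a_PHR

theorem low : S_LOW := a_LOW a_MASS a_PHR a_CNT

end Q78.FE
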