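import Pool.Agent.Q78.FE.Def

/-!
Project FE (helper78): statements of the parts, with proofs in words. First part: characteristic
functions, gadgets, exploration, upper bounds.

Conventions. `p` denotes a constant parameter, `fun _ => p` the weights of the edges. `u` is the
size of a gadget, `m` the size of its mass box (`u = k0 * m`), `s` the size of the strip
`[s, 5s] × [-9s, 9s]`. All the boxes are boxes for `nv` (sup norm).
Library: `Pool.Agent.H974R2` (namespace `H974`), `Pool.Agent.H160R2.CV` (`Quad`: `bo`, `Cr`, `LA`,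
`last_exit`, `indep2`), `Pool.Agent.H362P.Base` (`H362P`: `CA`, `CA_meet`, `hit_or`, `unwire_in`),
`Pool.Agent.Y244.PC`, `Pool.Agent.Q291.CS`, `H12S.Win` (`Pool.Agent.H12R2.Sep.Defs`).
-/

set_option autoImplicit false

namespace Q78.FE

open Finset H974 Pool.Agent.H160R2.CV Pool.Agent.H160R2.CV.Quad H362P

/-! ### Part A: general lemmas -/

/-- A-CEX. Elementary properties of the complex expectation.
Proof. All of them follow from the real case (`H974.Ex_union`, `Ex_mul_left`, `Ex_const`,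
`Ex_congr`, `Ex_local`) through
`CEx p S f = (Ex p S (fun F => (f F).re) : ℂ) + (Ex p S (fun F => (f F).im) : ℂ) * I`, or directly
from the definition as a finite sum, as in the file `H974R2/Basic`. The inequality for the norm is
`norm_sum_le` with nonnegative weights. -/
def S_CEX : Prop := ∀ {E : Type} [DecidableEq E] (p : E → ℝ) (S : Finset E),
  (Ok p → ∀ f : Finset E → ℂ, ‖CEx p S f‖ ≤ Ex p S (fun F => ‖f F‖)) ∧
  (∀ f g : Finset E → ℂ, (∀ F, F ⊆ S → f F = g F) → CEx p S f = CEx p S g) ∧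
  (∀ (T : Finset E), Disjoint S T → ∀ f : Finset E → ℂ,
    CEx p (S ∪ T) f = CEx p S (fun A => CEx p T (fun B => f (A ∪ B)))) ∧
  (∀ (c : ℂ) (f : Finset E → ℂ), CEx p S (fun F => c * f F) = c * CEx p S f) ∧
  (∀ c : ℂ, CEx p S (fun _ => c) = c) ∧
  (∀ f : Finset E → ℝ, CEx p S (fun F => (f F : ℂ)) = (Ex p S f : ℂ)) ∧
  (∀ f g : Finset E → ℂ, CEx p S (fun F => f F + g F) = CEx p S f + CEx p S g) ∧
  (∀ S' : Finset E, S' ⊆ S → ∀ f : Finset E → ℂ, (∀ F, F ⊆ S → f F = f (F ∩ S')) →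
    CEx p S f = CEx p S' f)

/-- A-BINT. Integration of the blocks. `A i` says that the block `i` is active in `F`; if so, a
change inside the block `B i` changes neither `g` nor the active blocks, and it changes `X` only
through `y i`.
Proof. For `K ⊆ J` put `Φ_K F = g F * ei (θ * (X F - Σ_{i ∈ K, A i F} y i F)) *
Π_{i ∈ K, A i F} φ_i F` with `φ_i F = CEx p (B i) (fun G => ei (θ * y i ((F \ B i) ∪ G)))`. Then
`CEx p U Φ_K` does not depend on `K`: let `k ∈ J \ K`, write `U = (U \ B k) ∪ B k` and use A-CEX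
(union). Fix the part `F1` of `F` outside `B k`. If `A k (F1 ∪ G)` holds for one `G ⊆ B k`, it
holds for all of them by `h`, and on these sets `g`, the events `A i`, the numbers `y i` and the
`φ_i` for `i ≠ k` are constant while `X - y k` is constant; so the average over `G` of
`Φ_K (F1 ∪ G)` is `Φ_{K ∪ k} (F1 ∪ G)`, which is constant in `G`. Otherwise
`Φ_{K ∪ k} = Φ_K` on these sets. Induct from `K = ∅` (`Φ_∅ = g ei (θ X)`) to `K = J` and take
norms (`‖ei t‖ = 1`). -/
def S_BINT : Prop := ∀ {E ι : Type} [DecidableEq E] [DecidableEq ι] (p : E → ℝ), Ok p →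
  ∀ (U : Finset E) (J : Finset ι) (B : ι → Finset E), (∀ i ∈ J, B i ⊆ U) →
  (∀ i ∈ J, ∀ j ∈ J, i ≠ j → Disjoint (B i) (B j)) →
  ∀ (g X : Finset E → ℝ) (y : ι → Finset E → ℝ) (A : ι → Finset E → Prop)
    [∀ i F, Decidable (A i F)],
  (∀ i ∈ J, ∀ F F', F ⊆ U → F' ⊆ U → F \ B i = F' \ B i → A i F →
    A i F' ∧ g F' = g F ∧ X F' - y i F' = X F - y i F ∧
    ∀ j ∈ J, j ≠ i → ((A j F' ↔ A j F) ∧ y j F' = y j F ∧
      ∀ G, G ⊆ B j → y j ((F' \ B j) ∪ G) = y j ((F \ B j) ∪ G))) →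
  ∀ θ : ℝ, ‖CEx p U (fun F => (g F : ℂ) * ei (θ * X F))‖ ≤
    Ex p U (fun F => |g F| * ∏ i ∈ J,
      if A i F then ‖CEx p (B i) (fun G => ei (θ * y i ((F \ B i) ∪ G)))‖ else 1)

/-- A-GAP. A gap for the characteristic function of `Y = Yi + Yo`, where `Yi` vanishes on a
decreasing event `Q`.
Proof. Let `φ = CEx p B (ei (θ Y))`. `‖φ‖² = Ex_F Ex_G cos (θ (Y F - Y G))`, so
`1 - ‖φ‖ ≥ (1 - ‖φ‖²) / 2 = (1/2) Ex Ex (1 - cos (θ (Y F - Y G)))` and, since
`1 - cos t ≥ (11/24) t²` for `|t| ≤ 1`, this is at least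
`(11/48) (θ δ)² (PP(|Y F - Y G| ≥ δ) - PP(|Y F - Y G| > β))`. The last probability is at most
`2 Pr (β < Y)` as `Y ≥ 0`. For the first one: if `Pr Q = 0` there is nothing to prove
(`‖φ‖ ≤ 1`). Otherwise let `s` be a median of `Yo` given `Q`: `Pr (Q ∧ Yo ≤ s) ≥ Pr Q / 2` and
`Pr (Q ∧ s ≤ Yo) ≥ Pr Q / 2` (take for `s` the least value of `Yo` with the first property).
By `Pr_harris_decr` `Pr (s ≤ Yo ∧ Q) ≤ Pr (s ≤ Yo) Pr Q`, so `Pr (s ≤ Yo) ≥ 1/2`. Hence
`Pr (Y ≤ s) ≥ Pr (Q ∧ Yo ≤ s) ≥ Pr Q / 2` and, by `Pr_harris`,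
`Pr (s + δ ≤ Y) ≥ Pr (s ≤ Yo ∧ δ ≤ Yi) ≥ Pr (δ ≤ Yi) / 2`. So
`PP(|Y F - Y G| ≥ δ) ≥ 2 (Pr Q / 2) (Pr (δ ≤ Yi) / 2)` (two disjoint events), which is more than
what is needed. -/
def S_GAP : Prop := ∀ {E : Type} [DecidableEq E] (p : E → ℝ), Ok p → ∀ (B : Finset E)
  (Yi Yo : Finset E → ℝ), Incr B Yi → Incr B Yo → (∀ F, F ⊆ B → 0 ≤ Yi F) →
  (∀ F, F ⊆ B → 0 ≤ Yo F) → ∀ Q : Finset E → Prop, IncrE B (fun F => ¬ Q F) →
  (∀ F, F ⊆ B → Q F → Yi F = 0) → ∀ δ β θ : ℝ, 0 < δ → 0 < β → 0 ≤ θ → θ * β ≤ 1 → δ ≤ β →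
  ‖CEx p B (fun F => ei (θ * (Yi F + Yo F)))‖ ≤
    1 - 11 / 48 * (θ * δ) ^ 2 * (1 / 4 * Pr p B Q * Pr p B (fun F => δ ≤ Yi F) -
      2 * Pr p B (fun F => β < Yi F + Yo F))

/-- A-INV. Fourier inversion: a bound for the characteristic function of a weighted integer valued
variable gives bounds for its weighted law and its first and second differences.
Proof. With `φ θ = CEx p U (g ei (θ X))`, `h k = (1 / (2 π)) ∫_{-π}^{π} φ θ ei (-(k θ)) dθ`
(finite sum, and `∫_{-π}^{π} ei (j θ) dθ` is `2 π` for `j = 0` and `0` for the other integers `j`).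
`|ei (-θ) - 1| ≤ |θ|`. So the three quantities are at most
`(1 / (2π)) ∫ |θ|^j A / (1 + |θ| M)^6 dθ ≤ (1/π) A M^(-(j+1)) ∫_0^∞ x^j / (1+x)^6 dx` with
`j = 0, 1, 2`, and the last integral is at most one (`x^j / (1+x)^6 ≤ 1 / (1+x)^2`). -/
def S_INV : Prop := ∀ {E : Type} [DecidableEq E] (p : E → ℝ), Ok p → ∀ (U : Finset E)
  (g : Finset E → ℝ) (X : Finset E → ℕ) (A M : ℝ), 0 ≤ A → 1 ≤ M →
  (∀ θ : ℝ, |θ| ≤ Real.pi →
    ‖CEx p U (fun F => (g F : ℂ) * ei (θ * (X F : ℝ)))‖ ≤ A / (1 + |θ| * M) ^ 6) →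
  ∀ k : ℕ,
    |Ex p U (fun F => g F * ind (X F = k))| ≤ A / M ∧
    |Ex p U (fun F => g F * ind (X F = k + 1)) - Ex p U (fun F => g F * ind (X F = k))| ≤
      A / M ^ 2 ∧
    |Ex p U (fun F => g F * ind (X F = k + 2)) - 2 * Ex p U (fun F => g F * ind (X F = k + 1)) +
      Ex p U (fun F => g F * ind (X F = k))| ≤ A / M ^ 3

/-! ### Part B: geometry of a gadget -/

/-- B-LOC. Locality and monotonicity of the events of a gadget, for `1 ≤ u`.
Proof. `CA z (3u) (9u)` is made of four crossings of rectangles of the shifted configuration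
(`Circ`, `LRc_local`, `TBc_local`), whose edges are in the box of radius `9u` and not in the box
of radius `2u` around `z` (their coordinates are at distance at least `3u` in one direction).
The rest is immediate from the definitions (`Circ.mono`, `Reach.mono`). -/
def S_LOC : Prop := ∀ (z : Vtx) (u : ℕ), 1 ≤ u → ∀ F F' : Finset Edg,
  (F ∩ An z u = F' ∩ An z u → (Gd z u F ↔ Gd z u F') ∧ ∀ w, (Rad z u F w ↔ Rad z u F' w)) ∧
  (F ∩ (bo z (90 * u) \ bo z (2 * u)) = F' ∩ (bo z (90 * u) \ bo z (2 * u)) →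
    (Lk z u F ↔ Lk z u F')) ∧
  (F ∩ bo z (9 * u) = F' ∩ bo z (9 * u) → ∀ v, (Hb z u F v ↔ Hb z u F' v)) ∧
  (F ⊆ F' → (Gd z u F → Gd z u F') ∧ (Lk z u F → Lk z u F') ∧
    (∀ w, Rad z u F w → Rad z u F' w) ∧ (∀ v, Hb z u F v → Hb z u F' v))

/-- B-OUT. If the circuit of the gadget is open, changes in the block do not change the
connections between vertices outside the box of radius `9u`.
Proof. `H362P.unwire_in` for the configuration `F \ Bl z u` (the circuit is in it by B-LOC) and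
the edges of the block, whose ends are at distance at most `2u`. For the second part use the
configurations intersected with `boxE R`, which contain the circuit since
`An z u ⊆ bo z (9u) ⊆ boxE R`. -/
def S_OUT : Prop := ∀ (z : Vtx) (u : ℕ), 1 ≤ u → ∀ F F' : Finset Edg, Gd z u F →
  F \ Bl z u = F' \ Bl z u → ∀ a b : Vtx, 9 * u ≤ nv (a - z) → 9 * u ≤ nv (b - z) →
  (Reach (↑F) a b ↔ Reach (↑F') a b) ∧
  ∀ R : ℕ, bo z (9 * u) ⊆ boxE R →
    (Reach (↑F ∩ ↑(boxE R)) a b ↔ Reach (↑F' ∩ ↑(boxE R)) a b)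

/-- B-ATT. Changes in the block of a gadget with open circuit do not change the attached gadgets.
Proof. For `z` itself: if `Rad z u F w` with outer end `v` (at distance at least `9u`), then
`Reach F o w` iff `Reach F o v`, and B-OUT applies to `o` and `v`; the path from `w` to `v` is in
`An z u`, on which `F` and `F'` agree. For the other gadget `z'`: `w` is at distance at most `3u`
of `z'`, so at distance more than `15u` of `z`, and B-OUT applies to `o` and `w`; `Gd` and `Rad`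
at `z'` only look at `bo z' (9u)`, which is disjoint from the block of `z` (B-LOC). -/
def S_ATT : Prop := ∀ (o z : Vtx) (u : ℕ), 1 ≤ u → 9 * u < nv (o - z) →
  ∀ F F' : Finset Edg, Gd z u F → F \ Bl z u = F' \ Bl z u →
  (att o z u F' ↔ att o z u F) ∧
  ∀ z' : Vtx, 18 * u < nv (z - z') → (att o z' u F' ↔ att o z' u F)

/-- B-ADD. Additivity: the number of the vertices of the cluster which are not counted by the
gadget does not depend on the block.
Proof. (i) If the gadget is attached, every `v` with `Hb z u F v` is in the cluster: two radial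
points `w`, `w'` of the gadget are connected in `F ∩ An z u` (apply `H362P.CA_meet` to the
configuration `F ∩ An z u`); also `nv (v - z) ≤ 9u` (a path in `bo z (9u)` from `w`, and
`nv (w - z) ≤ 3u`) so that `v ∈ bx n`. Hence `Sz - Yz` is the number of the `v ∈ bx n` with
`Reach F o v` and not `Hb z u F v`. (ii) It is enough to compare `F` and `F0 = F \ Bl z u`.
Let `v` with `Reach F o v`, not `Hb z u F v`. If `9u ≤ nv (v - z)` then `Reach F0 o v` by B-OUT.
If not, `first_exit` gives `v1` with `nv (v1 - z) = 9u` and a path from `v` to `v1` in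
`F ∩ bo z (9u)`. If this path meets the box of radius `2u` (use `H362P.hit_or` with
`B = F ∩ Bl z u`) then, by `last_exit` and this path, there is a radial point connected to `v`, so
`Hb z u F v`, a contradiction; hence the path is in `F0`, and `Reach F0 o v1` by B-OUT. Not
`Hb z u F0 v` by monotonicity. (iii) Conversely let `Reach F0 o v`, not `Hb z u F0 v`, and suppose
`Hb z u F v`. Let `v1` be at distance `9u` with `Reach (F0 ∩ bo z (9u)) v v1` (`v1 = v` or
`first_exit` in `F0`; `v` is at distance at most `9u` because of `Hb z u F v`, and `o` is outside).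
The path in `F ∩ bo z (9u)` from `v` to a radial point `w` is in `F0`, so that `Hb z u F0 v`, or
by `hit_or` some `w'` at distance at most `2u` has `Reach (F0 ∩ bo z (9u)) v w'`; then `w'` is
connected to `v1` in `F0 ∩ bo z (9u) = F ∩ An z u`, so `Rad z u F0 w'` and `Hb z u F0 v`, a
contradiction. -/
def S_ADD : Prop := ∀ (n : ℕ) (o z : Vtx) (u : ℕ), 1 ≤ u → 9 * u < nv (o - z) →
  bxz z (9 * u) ⊆ bx n → ∀ F F' : Finset Edg, att o z u F → F \ Bl z u = F' \ Bl z u →
  (Sz n o F' : ℝ) - Yz z u F' = (Sz n o F : ℝ) - Yz z u F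

/-- B-GG. The sides of `[-R, R]²` reached by the cluster do not depend on the block, if the box
of radius `9u` around `z` does not meet the lines `y = R`, `y = -R` and is in `-R < x < R`.
Proof. If `R ≤ z.2 - 9u` or `z.2 + 9u ≤ -R` then `Bl z u` is disjoint from `boxE R` and the
configurations agree there. Otherwise `bo z (9u) ⊆ boxE R`, and B-OUT applies to `o` and the
vertices `v` on the sides: `nv (v - z) ≥ 9u`, since a vertex with `nv (v - z) < 9u` has
`|v.1| < R` and `|v.2| < R`. -/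
def S_GG : Prop := ∀ (R : ℕ) (o z : Vtx) (u : ℕ), 1 ≤ u → 9 * u ≤ nv (o - z) →
  -(R : ℤ) < z.1 - 9 * u → z.1 + 9 * u < R →
  (z.2 + 9 * u ≤ -(R : ℤ) ∨ (-(R : ℤ) ≤ z.2 - 9 * u ∧ z.2 + 9 * u ≤ R) ∨ (R : ℤ) ≤ z.2 - 9 * u) →
  ∀ F F' : Finset Edg, Gd z u F → F \ Bl z u = F' \ Bl z u →
  (∀ i, (fl R o i F ↔ fl R o i F')) ∧ gg R o F = gg R o F'

/-- B-SYM. The symmetries of the square: each side gives the same contribution.
Proof. For each `i` there is a symmetry `g` (`rfx 0`, `rfy 0`, `tps` and compositions) of the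
lattice which maps the side `i` to the right side, fixes `(0,0)` and preserves `boxE R`, `boxE n`,
`bx n`, hence `Sz n (0,0) (g.mp F) = Sz n (0,0) F` and `nfl R (0,0) (g.mp F) = nfl R (0,0) F`
(it permutes the four sides), `fl R 0 0 (g.mp F) ↔ fl R 0 i F`. So
`Ex (ind (fl i) / nfl * ind (Sz = k))` does not depend on `i` (`LSym.pr` is the statement for
events; for functions use `Ex_map` in the same way). Summing over `i`,
`Σ_i ind (fl i) / nfl = 1` if some side is reached (else all terms vanish). -/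
def S_SYM : Prop := ∀ (p : ℝ) (n R k : ℕ), R ≤ n →
  Pr (fun _ => p) (boxE n) (fun F => Sz n (0, 0) F = k ∧ ∃ i, fl R (0, 0) i F) =
    4 * Ex (fun _ => p) (boxE n) (fun F => gg R (0, 0) F * ind (Sz n (0, 0) F = k))

/-- B-INTJ. The integration of all the attached gadgets of the strip.
Proof. A-BINT with `U = boxE n`, `J = Jz s u`, `B z = Bl z u`, `g F = q F * gg (8s) o F`,
`X F = Sz n o F`, `y z = Yz z u`, `A z = att o z u`. For `z ∈ Jz s u`: `Bl z u` is in the strip
`LRE s (5s) (-9s) (9s)` (its coordinates are at distance at least `7u` from the sides), so `q` does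
not change; `o.1 < s ≤ z.1 - 9u` gives `9u < nv (o - z)`; the lines `y = 8s`, `y = -8s` have
coordinates in `20 u ℤ` while `z.2 ∈ 20 u ℤ + 10 u`, so B-GG applies; `bxz z (9u) ⊆ bx n` as
`9 s ≤ n`; two different centres are at distance at least `20 u`, so B-ATT applies, the boxes of
radius `9u` are disjoint, and `Yz z' u` only looks at `bo z' (9u)` (B-LOC). B-ADD gives the
condition on `X`. Finally `|g F| = q F * gg (8s) o F` and the definition of `wa`. -/
def S_INTJ : Prop := ∀ (p θ : ℝ) (s u n : ℕ) (o : Vtx), 0 ≤ p → p ≤ 1 → 1 ≤ u → 20 * u ∣ s →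
  9 * s ≤ n → o.1 < s → ∀ q : Finset Edg → ℝ, (∀ F, 0 ≤ q F) →
  (∀ F, q F = q (F \ LRE s (5 * s) (-(9 * (s : ℤ))) (9 * s))) →
  ‖CEx (fun _ => p) (boxE n) (fun F => ((q F * gg (8 * s) o F : ℝ) : ℂ) *
      ei (θ * (Sz n o F : ℝ)))‖ ≤
    Ex (fun _ => p) (boxE n) (fun F => q F * gg (8 * s) o F * ∏ z ∈ Jz s u, wa p θ o z u F)

/-! ### Part C: one gadget -/

/-- C-K0. Closed circuits in thick annuli.
Proof. `Cr z m (2 k0 m)` is increasing, so it is enough to treat `p = 1/2` (`Pr_mono_param`), where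
`Quad.pr_Cr` bounds it by `barm (1/2) m (2 k0 m)`. By `H974.arm_glue` (with `p = 1/2`)
`(1/2)^188 * (arm (1/2) (3m) * barm (1/2) m n) ≤ arm (1/2) n` for `3 m ≤ n`, and the sharp one-arm
estimate `Pool.Agent.H160R2.SA.arSharp` (or the form used in `Q291.CS.Exm.ar_upper`) gives
`barm (1/2) m n ≤ C (n / (3m))^(-5/48)`, which is at most `1/2` for `n = 2 k0 m` and `k0` large. -/
def S_K0 : Prop := ∃ k0 : ℕ, K0P k0

/-- C-YIN. A linked gadget has a large mass with positive probability.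
Proof. Put `u = k0 m`, `δ = a / 2`. The intersection of the following increasing events has
probability at least a constant (`Pr_harris`): `CA z (3u) (9u)`, `CA z (30u) (90u)`, `CA z m (3m)`
(each is an intersection of four crossings of rectangles of ratio `3`: `pr_Circ` with
`hh p (2 R2) (R2 - R1) ≥ hh p (16 h) h ≥ κ`, `h = R2 - R1`, `hh_mono`, `H12S.Win.pri`), the left
right crossing of `[z.1, z.1 + 90u] × [z.2, z.2 + m]` (probability
`hh p (90 k0 m) m ≥ κ^(2j+1)` for `16 + 15 j ≥ 90 k0`, `Pool.Agent.W424.NC.hh_long`), and the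
count event `Q291.CS.CtP z (a/2 m^(91/48)) m` (`Q291.CS.count_p`; probability at least a constant
for `p` in the window since `a (4m)^(-5/48) ≤ arm p (4m)`; `Q291.CS.CtP_set`). On this
intersection: the crossing starts at `w1` with `nv (w1 - z) ≤ m` and ends at distance at least
`90u`, inside `bo z (90u)` (shorten it with `first_exit`); with `last_exit` from the box of radius
`2u` we get `Lk z u F`. Let `x` be one of the vertices of the count event: `nv (x - z) ≤ m`,
`Far x (4m) F`. Both `x` and `w1` are connected to distance `3m` inside `bo z (3m)`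
(`first_exit`), so by `CA_meet` for the configuration `F ∩ bo z (3m)` they are connected in
`F ∩ bo z (3m)`, and `w1` is connected in `F ∩ bo z (9u)` to distance `9u` (`3m ≤ u`), hence to a
radial point (`last_exit` from the box of radius `2u`). So `Hb z u F x`, and
`Yi z u m F ≥ a / 2 * m^(91/48)`. -/
def S_YIN : Prop := ∀ k0 : ℕ, 3 ≤ k0 → ∀ κ a : ℝ, 0 < κ → 0 < a → ∃ δ c : ℝ, 0 < δ ∧ 0 < c ∧
  ∀ (p : ℝ) (m : ℕ), 1 ≤ m → NW κ a p (200 * k0 * m) → ∀ (z : Vtx) (S : Finset Edg),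
    bo z (90 * (k0 * m)) ⊆ S →
    c ≤ Pr (fun _ => p) S (fun F => Gd z (k0 * m) F ∧ Lk z (k0 * m) F ∧
      δ * (m : ℝ) ^ (91 / 48 : ℝ) ≤ Yi z (k0 * m) m F)

/-- C-YEX. The mean mass of a gadget.
Proof. If `Hb z u F v`, let `w` be the radial point (`nv (w - z) ≤ 3u`) and `v'` the outer end of
the radial path (`nv (v' - z) ≥ 9u`). `v` is connected to `w` and to `v'`, and
`nv (w - v') ≥ 6u`, so one of them is at distance at least `3u` from `v`: `Far v (3u) F`. By
`Quad.LA_of_far`, `Quad.pr_LA` and monotonicity in `p` (`Pr_mono_param`) this has probability at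
most `ar (3u) ≤ C u^(-5/48)`. Sum over the `(18u+1)^2 ≤ 361 u^2` vertices. -/
def S_YEX : Prop := ∃ C : ℝ, 0 < C ∧ ∀ p : ℝ, 0 ≤ p → p ≤ 1 / 2 → ∀ u : ℕ, 1 ≤ u →
  ∀ (z : Vtx) (S : Finset Edg), Ex (fun _ => p) S (Yz z u) ≤ C * (u : ℝ) ^ (91 / 48 : ℝ)

/-- C-ONE. The weight of a linked gadget at the scale of `θ`.
Proof. Let `k0` be from C-K0, `δ, c` from C-YIN, `C` from C-YEX, `u = k0 m`,
`β = B m^(91/48)` with `B = max δ (32 C k0^(91/48) / c)`; take `b = B`. Fix the configuration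
`F0 = F \ Bl z u` outside the block. For `G ⊆ Bl z u` let `Yi G = Yi z u m (F0 ∪ G)` and
`Yo G = Yz z u (F0 ∪ G) - Yi G` (a sum over the other vertices, so increasing and nonnegative),
`Q G`: not `Cr z m (2u) G`. On `Q`, `Yi = 0`: if `Hb z u (F0 ∪ G) v` with `nv (v - z) ≤ m` then `v`
is connected to a vertex at distance at least `9u`, and `last_exit` (from the box of radius `m`)
and `first_exit` (box of radius `2u`) give `Cr z m (2u)`, an event which only looks at the
edges of `bo z (2u) \ bo z m ⊆ Bl z u`. A-GAP gives, as `Pr Q ≥ 1/2`,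
`1 - wt ≥ (11/48) (θ δ m^(91/48))^2 ((1/8) Pr_G (δ m^(91/48) ≤ Yi) - 2 Pr_G (β < Y))`. Multiply by
the indicator of `Gd ∧ Lk` (which does not depend on the block by B-LOC) and average:
`1 - Ex WW = Ex ((1 - wt) ind (Gd ∧ Lk)) ≥ (11/48) (θ δ m^(91/48))^2 (c/8 - 2 Pr (β < Yz))` and
`2 Pr (β < Yz) ≤ 2 Ex Yz / β ≤ 2 C k0^(91/48) / B ≤ c / 16` by Markov and C-YEX, so that
`1 - Ex WW ≥ (11/48) (θ δ m^(91/48))^2 c / 16`. Finally `θ m^(91/48) ≥ 1 / (K b)`. -/
def S_ONE : Prop := ∀ k0 : ℕ, K0P k0 → ∀ κ a : ℝ, 0 < κ → 0 < a → ∃ b : ℝ, 0 < b ∧ ∀ K : ℝ, 1 ≤ K → ∃ c : ℝ, 0 < c ∧ c ≤ 1 ∧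
  ∀ (p θ : ℝ) (m : ℕ), 1 ≤ m → NW κ a p (200 * k0 * m) →
    1 ≤ K * (θ * (b * (m : ℝ) ^ (91 / 48 : ℝ))) → θ * (b * (m : ℝ) ^ (91 / 48 : ℝ)) ≤ 1 →
    ∀ z : Vtx, Ex (fun _ => p) (bo z (90 * (k0 * m))) (WW p θ z (k0 * m)) ≤ 1 - c

/-- C-BIG. The weight of a linked gadget of constant size, for `θ` away from zero.
Proof. Let `N0` be the number of the edges of `bo z (90 k0)` (it does not depend on `z`). With
probability at least `(1/4)^N0` all the edges of `bo z (90 k0) \ Bl z k0` are open. Then `Gd` and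
`Lk` hold, and for `G = Bl z k0` all the `(18 k0 + 1)^2` vertices of `bxz z (9 k0)` are counted by
`Yz`, while for `G` = the block without the four edges at `z` exactly one of them (`z`) is not.
Let `w1, w2 ≥ (1/4)^N0` be the probabilities of these two `G` (`1/4 ≤ p`, `1/4 ≤ 1 - p`). Then
`wt ≤ (1 - w1 - w2) + ‖w1 ei θ + w2‖` and `‖w1 ei θ + w2‖² = (w1 + w2)² - 2 w1 w2 (1 - cos θ)`, so
`1 - wt ≥ w1 w2 (1 - cos θ) ≥ w1 w2 (1 - cos θ0)` for `θ0 ≤ θ ≤ π`. -/
def S_BIG : Prop := ∀ (k0 : ℕ) (θ0 : ℝ), 3 ≤ k0 → 0 < θ0 → ∃ c : ℝ, 0 < c ∧ c ≤ 1 ∧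
  ∀ p θ : ℝ, 1 / 4 ≤ p → p ≤ 1 / 2 → θ0 ≤ θ → θ ≤ Real.pi → ∀ z : Vtx,
    Ex (fun _ => p) (bo z (90 * k0)) (WW p θ z k0) ≤ 1 - c

/-! ### Part D: exploration -/

/-- D-REG. The unexplored regions are regular.
Proof. Induction on `j`. `T0`: the face `(x, y)` is connected to `(x, d)` through the edges
`(x, y', true)`, `y < y' ≤ d`, whose sides are in the same column; the complement of `T0` (in the
rows `c - 1, …, d`) is the row `c - 1`. Step from `T` to `T' = PH T F`, with `K = KK T F`: `sub` is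
clear; `top`: the face `(x, d)` is in `T`, and not in `K` because of `Alive (j + 1)`; `conT`: by
definition `f ∈ T'` is connected to the top by a path of faces inside `T \ K`, and all the faces of
this path are in `T'`. `conC`: let `f ∉ T'`. (i) If `f ∉ T` use the induction hypothesis (an edge
with no side in `T` has no side in `T' ⊆ T`). (ii) If `f ∈ K`, the path in the definition of `KK`
consists of faces of `K` (every face on it is in `K`), so of edges with no side in `T'`, and its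
start `f0` is next to an edge `e ∈ bdT T` whose other side is not in `T`; then (i). (iii) If
`f ∈ T \ K`, `f ∉ T'`: go down in the column of `f` until the first face which is not in
`(T \ K) \ T'`; it exists since the face of the row `c - 1` is not in `T`. It is not in `T'`, since
it is connected to the previous face by an edge with both sides in `T \ K`, which would put the
previous face in `T'`. So it is not in `T` or it is in `K`: (i) or (ii). -/
def S_REG : Prop := ∀ (a b c d : ℤ), a < b → c ≤ d → ∀ (F : Finset Edg) (j : ℕ),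
  Alive a b c d j F → Reg a b c d (Tn a b c d F j)

/-- D-OPEN. The boundary of the new region is open, and the regions decrease.
Proof. Let `e` have exactly one side `f` in `T' = PH T F`, the other side `f'` not. If `f' ∉ T`
then `f` is a face of `T` next to `bdT T`, so `f ∈ K` (empty path), a contradiction. If
`f' ∈ T \ K` then `f'` is connected to the top inside `T \ K` through `f`, so `f' ∈ T'`. So
`f' ∈ K`; if `e` were closed, `f` would be in `K`. The second claim: `Reg T` (D-REG) gives a face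
of `T` next to `bdT T` (go down in the column of `(a, d) ∈ T` to `(a, c - 1) ∉ T`); it is in `K`
and so not in `T'`. The third: the sizes of the regions decrease strictly. -/
def S_OPEN : Prop := ∀ (a b c d : ℤ), a < b → c ≤ d → ∀ (F : Finset Edg) (j : ℕ),
  bdT a b c d (Tn a b c d F (j + 1)) ⊆ F ∧
  (Alive a b c d j F → Tn a b c d F (j + 1) ⊂ Tn a b c d F j) ∧
  (Alive a b c d j F → j ≤ (T0 a b c d).card)

/-- D-CONN. The boundary of a regular region is a left-right crossing, all of whose edges are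
connected.
Proof. Let `W v` say that `v` is connected in `bdT T` to some `(a, y)`, `c ≤ y ≤ d`. If no
`(b, y)` has `W`, `dual_crossing` gives a dual path from `(x, c - 1) ∉ T` to `(x', d) ∈ T` through
edges of `bdry W`; it has an edge with exactly one side in `T`, that is an edge of `bdT T`, whose
two ends both have or both do not have `W`, a contradiction. So there are `y, y'` with
`Reach (bdT T) (a, y) (b, y')`. Let `e ∈ bdT T`. If `(a, y)` and `(b, y')` were connected in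
`bdT T \ {e}`, `no_both` would be contradicted by the following dual path, which uses no edge of
`bdT T` except `e`: from the bottom to the side of `e` outside `T` (`conC`, edges of `exT`), then
`e`, then from the side of `e` in `T` to the top (`conT`, edges of `inT`). So every path in `bdT T`
from `(a, y)` to `(b, y')` uses `e`, and `(a, y)` is connected to `src e` and to `tgt e`. -/
def S_CONN : Prop := ∀ (a b c d : ℤ), a < b → c ≤ d → ∀ T : Finset Vtx, Reg a b c d T →
  ∃ y y' : ℤ, (c ≤ y ∧ y ≤ d) ∧ (c ≤ y' ∧ y' ≤ d) ∧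
    Reach (↑(bdT a b c d T)) (a, y) (b, y') ∧
    ∀ e ∈ bdT a b c d T, Reach (↑(bdT a b c d T)) (a, y) (src e)

/-- D-LOCT. The event that the `j`-th region is `T` does not depend on the edges with both sides
in `T`.
Proof. Induction on `j`, for all pairs of configurations. Let `T' = Tn F (j+1)`, `T = Tn F j`,
`F'` equal to `F` outside `inT T'`. Since `T' ⊆ T`, `F'` equals `F` outside `inT T`, so
`Tn F' j = T` and `Alive j F'`. `KK T F = KK T F'`: let `K = KK T F`; `K ∩ T' = ∅`, so the edges of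
a path in the definition of `K`, whose sides are all in `K`, are not in `inT T'` and have the same
state in `F'`: `K ⊆ KK T F'`. If the other inclusion fails, there is an edge, closed in `F'`, with
both sides in `T`, one in `K` and the other not in `K`; it is not in `inT T'`, so it is closed in
`F`, a contradiction. So `PH T F = PH T F'` and the condition for `Alive (j+1)` is the same. -/
def S_LOCT : Prop := ∀ (a b c d : ℤ), a < b → c ≤ d → ∀ (j : ℕ) (F F' : Finset Edg),
  Alive a b c d j F →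
  (∀ e ∈ LRE a b c d, e ∉ inT a b c d (Tn a b c d F j) → (e ∈ F ↔ e ∈ F')) →
  Tn a b c d F' j = Tn a b c d F j ∧ Alive a b c d j F'

/-- D-PATH. An open left-right crossing below height `h0` shares an edge with the boundary of one
of the regions, and this region contains all the faces above height `h0`.
Proof. Let `Ab` be the set of the faces connected to a top face `(x, d)`, `a ≤ x < b`, by a dual
path through edges of `LRE` which are not in `γ`. By `no_both` (for the configuration `γ`) `Ab`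
contains no face of the row `c - 1`, hence `Ab ⊆ T0`; and it contains the faces `(x, y)` with
`h0 ≤ y ≤ d` (vertical paths through horizontal edges at heights above `h0`). Suppose that there is
no `j` as claimed. We show by induction that `Alive j` and `Ab ⊆ Tn j` for all `j`, which
contradicts D-OPEN (third claim). For `j = 0` clear; `bdT T0` is the bottom line, so has no edge of
`γ`. Step: `bdT (Tn j)` has no edge of `γ` (for `j = 0` by the hypothesis on `γ`, for `j ≥ 1` by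
assumption, as the other conditions hold). Then `KK (Tn j) F` does not meet `Ab`: a face of `Ab` next
to an edge `e ∈ bdT (Tn j)` would have its other side in `Ab` (as `e ∉ γ`) and not in `Tn j`, a
contradiction, so the paths in the definition of `KK` start outside `Ab`, and they cross closed
edges, which are not in `γ ⊆ F`, so they stay outside `Ab`. The top faces are in `Ab`, so
`Alive (j+1)`; and `Ab ⊆ PH (Tn j) F`, as `Ab` is connected to the top inside `Ab`. -/
def S_PATH : Prop := ∀ (a b c d h0 : ℤ), a < b → c ≤ d → h0 ≤ d → ∀ (F γ : Finset Edg),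
  γ ⊆ F → γ ⊆ LRE a b c d →
  (∀ e ∈ γ, (src e).2 ≤ h0 ∧ (tgt e).2 ≤ h0 ∧ ¬ (e.2.2 = true ∧ e.2.1 = c)) →
  (∃ y y' : ℤ, (c ≤ y' ∧ y' ≤ d) ∧ Reach (↑γ) (a, y) (b, y')) →
  ∃ j : ℕ, 1 ≤ j ∧ Alive a b c d j F ∧ (∃ e ∈ γ, e ∈ bdT a b c d (Tn a b c d F j)) ∧
    ∀ x y : ℤ, a ≤ x → x < b → h0 ≤ y → y ≤ d → (x, y) ∈ Tn a b c d F j

/-- D-RES. The sum over the steps of the exploration.
Proof. Write `T j F = Tn F j`, `ρ = hh p (b - a) (d - c)`. (i) For every `q ≥ 0` which does not
look at `LRE`, `Ex (q ind (Alive j)) ≤ ρ^j Ex q`: by induction; decompose according to `T = T j F`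
(`Reg T` by D-REG); `q ind (Alive j ∧ T j F = T)` only looks at `F \ inT T` (D-LOCT), while the
condition that `KK T F` contains no top face only looks at `F ∩ inT T`; they are independent
(`Ex_mul_indep`), and the probability of the second is at most `ρ`: if there is no open left-right
crossing, there is a closed dual path from the bottom row `c - 1` to the top row `d`
(`dual_crossing` for the set of the vertices connected to the left side); its part after the last
face outside `T` starts at a face of `T` next to `bdT T` and is in `inT T`, so it ends in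
`KK T F`; hence no top face in `KK T F` implies `LRc a b c d F` (`pr_LRc`). (ii) By hypothesis, for
all `F ⊆ U`, `Ψ F ≤ Σ_{1 ≤ j ≤ card T0} Σ_T ind (Alive j F ∧ T j F = T) q F Ex_G (W T ((F ∩ inT T)
∪ (G \ inT T)))` (average the bound over `G ⊆ U`; `j ≤ card T0` by D-OPEN). The function
`F ↦ Ex_G (W T ((F ∩ inT T) ∪ (G \ inT T)))` only looks at `F ∩ inT T`, so by independence the mean
of the term is `Ex (q ind (Alive j ∧ T j = T)) Ex (W T) ≤ w Ex (q ind (Alive j ∧ T j = T))`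
(`Ex_union` for `U = inT T ∪ (U \ inT T)` shows that the mean of the inner function is
`Ex (W T)`). Sum over `T` and use (i): the total is at most `Σ_{j ≥ 1} ρ^j w Ex q`. -/
def S_RES : Prop := ∀ (p : ℝ), 0 ≤ p → p ≤ 1 → ∀ (a b c d : ℤ), a < b → c ≤ d →
  hh p (b - a) (d - c) < 1 → ∀ U : Finset Edg, LRE a b c d ⊆ U →
  ∀ (q Ψ : Finset Edg → ℝ) (W : Finset Vtx → Finset Edg → ℝ) (w : ℝ), (∀ F, 0 ≤ q F) →
  (∀ F, q F = q (F \ LRE a b c d)) → 0 ≤ w → (∀ T F, 0 ≤ W T F) →
  (∀ T, Ex (fun _ => p) U (W T) ≤ w) →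
  (∀ F, F ⊆ U → Ψ F ≤ 0 ∨ ∃ j, 1 ≤ j ∧ Alive a b c d j F ∧ ∀ G, G ⊆ U →
    Ψ F ≤ q F * W (Tn a b c d F j) ((F ∩ inT a b c d (Tn a b c d F j)) ∪
      (G \ inT a b c d (Tn a b c d F j)))) →
  Ex (fun _ => p) U Ψ ≤ Ex (fun _ => p) U q * w / (1 - hh p (b - a) (d - c))

/-! ### Part E: gadgets next to the boundary of a region -/

/-- E-COL. The place of the gadget in a column.
Proof. Let `P j` say `Dbx (x0, 20 u j + 10 u) u T`. There is an integer `j1` with
`h0 + 9u + 1 ≤ 20 u j1 + 10 u < h0 + 29 u + 1`; then `P j1`, since the faces of the box are above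
`h0` and at height at most `h0 + 38u + 1 ≤ d`, and `a ≤ x0 - 9u - 1`, `x0 + 9u < b`. `P j` fails if
`20 u j + 10 u - 9 u - 1 < c`, as `T ⊆ T0`. Let `j0` be the least integer such that `P j` holds
for all `j0 ≤ j ≤ j1`. So `P (j0 - 1)` fails: there is a face `f = (x, y) ∉ T` with
`|x - x0| ≤ 9u + 1` (more precisely `x0 - 9u - 1 ≤ x ≤ x0 + 9u`) and
`h - 29u - 1 ≤ y ≤ h - 11u`, `h = 20 u j0 + 10 u`. The face `(x, h)` is in `T`. Going up in the
column `x` from `f` there is `y'` with `y < y' ≤ h`, `(x, y' - 1) ∉ T`, `(x, y') ∈ T`: the edge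
`e = (x, y', true)` is in `bdT T` (`c ≤ y'` since `T ⊆ T0`), and `nv (src e - z) ≤ 29u`. -/
def S_COL : Prop := ∀ (a b c d h0 x0 : ℤ) (u : ℕ) (T : Finset Vtx), 1 ≤ u → Reg a b c d T →
  (∀ x y : ℤ, a ≤ x → x < b → h0 ≤ y → y ≤ d → (x, y) ∈ T) → c ≤ h0 → h0 + 40 * u ≤ d →
  a ≤ x0 - 9 * u - 1 → x0 + 9 * u < b →
  ∃ j : ℤ, Dbx (x0, 20 * (u : ℤ) * j + 10 * u) u T ∧ 20 * (u : ℤ) * j + 10 * u ≤ h0 + 30 * u ∧
    c ≤ 20 * (u : ℤ) * j + 10 * u - 9 * u - 1 ∧
    ∃ e ∈ bdT a b c d T, nv (src e - (x0, 20 * (u : ℤ) * j + 10 * u)) ≤ 30 * u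

/-- E-TOUCH. A linked gadget of the resampled configuration `ω` is attached to the boundary of
the region in the true configuration `F`.
Proof. By D-CONN `src e0` is connected in `bdT T` to `(a, y)`, which is outside the box of radius
`90u`. Let `Λ` be the configuration `(ω ∪ bdT T) ∩ bo z (90u)`. It contains the circuit
`CA z (30u) (90u)` (B-LOC style: `CA` only looks at `bo z (90u)`), a path from `src e0` (at distance
at most `30u`) to distance `90u` (`first_exit`), and, by `Lk`, a path from some `w` with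
`nv (w - z) ≤ 2u` to distance `90u`, in `ω ∩ (bo z (90u) \ bo z (2u))`. By `CA_meet` for `Λ` there is
`z1` connected in `Λ` to `w` and to `src e0`. So there is a path in `Λ` from `w` to `src e0`. Follow
it up to its first vertex `v*` which is an end of an edge of `bdT T`. Claim: the edges of this
piece are in `ω ∩ inT T`. Invariant: at each vertex of the piece before `v*` the four faces
around the vertex are in `T`. It holds for `w` by `Dbx z u T` (so in particular `w` itself is not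
an end of an edge of `bdT T`, see below). Let `v` be such a vertex, `e = {v, v'}` the next edge: its
two sides are among the faces around `v`, so in `T`; `e ∈ bo z (90u)` and `a + 91u ≤ z.1`,
`z.1 + 91u ≤ b`, `z.2 + 91u ≤ d`, `T ⊆ T0` imply `e ∈ LRE`: so `e ∈ inT T`, in particular
`e ∉ bdT T` and `e ∈ ω`. If `v'` is not an end of an edge of `bdT T`: each of the four edges at `v'`
which has exactly one side in `T` is in `LRE` (same reason), so it would be in `bdT T`; hence none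
of them has, and the four faces around `v'` are all in `T` since two of them (the sides of `e`)
are. So `w` is connected in `ω ∩ inT T = F ∩ inT T` to `v*`, an end of some `e1 ∈ bdT T ⊆ F`,
and by D-CONN to `src e` for every `e ∈ bdT T`, in `F`. Finally `Rad z u ω w`: cut the path from `w` to
distance `90u` at its first exit of the box of radius `9u`. `bo z (9u) ⊆ inT T` by `Dbx` and
`a + 91u ≤ z.1` and so on, so `F` and `ω` agree on `bo z (9u)` and `Rad z u F w`, `Gd z u F` (B-LOC). -/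
def S_TOUCH : Prop := ∀ (a b c d : ℤ) (z : Vtx) (u : ℕ) (T : Finset Vtx) (F ω : Finset Edg)
  (e0 : Edg), a < b → c ≤ d → 1 ≤ u → Reg a b c d T → Dbx z u T → a + 91 * u ≤ z.1 →
  z.1 + 91 * u ≤ b → z.2 + 91 * u ≤ d → e0 ∈ bdT a b c d T → nv (src e0 - z) ≤ 30 * u →
  bdT a b c d T ⊆ F → (∀ e ∈ inT a b c d T, (e ∈ ω ↔ e ∈ F)) → Gd z u ω → Lk z u ω →
  bo z (9 * u) ⊆ inT a b c d T ∧ Gd z u F ∧
    ∃ w, Rad z u F w ∧ ∀ e ∈ bdT a b c d T, Reach (↑F) w (src e)

/-- E-DOM. Domination of the product of the weights of the attached gadgets by the product of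
the weights of independent linked gadgets. `Z T k` is the centre of the gadget in the column `k`.
Proof. Let `a = s`, `b = 5s`, `c = -9s`, `d = 9s`, `h0 = 8s`, and
`x_k = s + 200 u k + 110 u` for `k < s / (100 u)` (so `s + 110u ≤ x_k ≤ 5s - 91 u`, using
`200 u ≤ s`). If `T` is regular and contains the faces of the rows `h0, …, d`, let `Z T k` be the
point `(x_k, 20 u j + 10 u)` of E-COL; otherwise `Z T k = (x_k, 10 u)`. Since `20 u ∣ s`, `Z T k`
is in `Jz s u` in the first case. (1), (2), (3) are clear: `bo (Z T k) (90u) ⊆ boxE n` since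
`10 s ≤ n`, `Z.2 + 90 u ≤ 8 s + 120 u ≤ 9 s`, `Z.2 - 90u ≥ -9s - 90u`. (4) Let `F ⊆ boxE n` with
`gg (8s) o F ≠ 0`. So `fl (8s) o 0 F`: `o` is connected in `F ∩ boxE (8s)` to the line `x = 8s`.
By `sub_LR` there is a left-right crossing of `[s, 5s] × [-8s, 8s]` by edges of `F ∩ boxE (8s)`,
connected to `o`: let `γ` be the set of the edges `e` of `F ∩ LRE s (5s) (-8s) (8s)` with
`Reach (F ∩ boxE (8s)) o (src e)`. D-PATH gives `j`, with `T = Tn F j` regular (D-REG) and
containing the rows from `h0` on, `bdT T ⊆ F` (D-OPEN, as `1 ≤ j`), and an edge `e1 ∈ γ ∩ bdT T`.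
So `o` is connected in `F` to `src e1`, hence by D-CONN to all the edges of `bdT T`. Let
`G ⊆ boxE n`, `ω = (F ∩ inT T) ∪ (G \ inT T)`. For each `k` with `Gd ∧ Lk` at `z = Z T k` in `ω`,
E-TOUCH (`e0` from E-COL) shows that `z` is attached: `att o z u F`, and `wt p θ z u ω = wt p θ z u F`
as `bo z (9u) ⊆ inT T`. So `WW` at `z` for `ω` equals `wa` at `z` for `F`; for the other `k` it is
`1`. All the factors are in `[0, 1]` (`‖CEx …‖ ≤ 1` by A-CEX), the points `Z T k` are distinct elements of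
`Jz s u`: the product over `Jz s u` is at most the product over these `k`. -/
def S_DOM : Prop := ∀ (s u n : ℕ), 1 ≤ u → 20 * u ∣ s → 200 * u ≤ s → 10 * s ≤ n →
  ∃ Z : Finset Vtx → ℕ → Vtx,
    (∀ T k, k < s / (100 * u) → bo (Z T k) (90 * u) ⊆ boxE n) ∧
    (∀ T k k', k < s / (100 * u) → k' < s / (100 * u) → k ≠ k' →
      200 * u ≤ nv (Z T k - Z T k')) ∧
    ∀ (p θ : ℝ) (o : Vtx) (F : Finset Edg), 0 ≤ p → p ≤ 1 → o.1 < s → F ⊆ boxE n →
      gg (8 * s) o F ≠ 0 →
      ∃ j, 1 ≤ j ∧ Alive s (5 * s) (-(9 * (s : ℤ))) (9 * s) j F ∧ ∀ G, G ⊆ boxE n →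
        ∏ z ∈ Jz s u, wa p θ o z u F ≤ ∏ k ∈ range (s / (100 * u)),
          WW p θ (Z (Tn s (5 * s) (-(9 * (s : ℤ))) (9 * s) F j) k) u
            ((F ∩ inT s (5 * s) (-(9 * (s : ℤ))) (9 * s)
                (Tn s (5 * s) (-(9 * (s : ℤ))) (9 * s) F j)) ∪
              (G \ inT s (5 * s) (-(9 * (s : ℤ))) (9 * s)
                (Tn s (5 * s) (-(9 * (s : ℤ))) (9 * s) F j)))

/-! ### Part F: the strip lemma and its consequences -/

/-- F-STRIP. Assembly.
Proof. B-INTJ, then D-RES with `U = boxE n`, `Ψ F = q F * gg (8s) o F * Π wa`,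
`W T F = Π_{k < M} WW p θ (Z T k) u F`, `M = s / (100u)`, `w = (1 - c)^M`. `0 ≤ gg ≤ 1` (`nfl ≥ 1` if
`fl 0`). `Ex (W T) ≤ (1 - c)^M`: the factors are in `[0,1]`, `WW` at `z` only looks at `bo z (90u)`
(B-LOC), these boxes are disjoint (`200u ≤ nv`, `Quad.bo_disj`), and `Q291.CS.prod_far` (with the
factors divided by `1 - c` if `c < 1`; if `c = 1` the mean of each factor is `0`). -/
def S_STRIP : Prop := ∀ (p θ cc : ℝ) (s u n : ℕ) (o : Vtx), 0 ≤ p → p ≤ 1 / 2 → 1 ≤ u →
  20 * u ∣ s → 200 * u ≤ s → 10 * s ≤ n → 0 ≤ cc → cc ≤ 1 →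
  (∀ z : Vtx, Ex (fun _ => p) (bo z (90 * u)) (WW p θ z u) ≤ 1 - cc) → o.1 < s →
  hh p (4 * s) (18 * s) < 1 →
  ∀ q : Finset Edg → ℝ, (∀ F, 0 ≤ q F) →
  (∀ F, q F = q (F \ LRE s (5 * s) (-(9 * (s : ℤ))) (9 * s))) →
  ‖CEx (fun _ => p) (boxE n) (fun F => ((q F * gg (8 * s) o F : ℝ) : ℂ) *
      ei (θ * (Sz n o F : ℝ)))‖ ≤
    Ex (fun _ => p) (boxE n) q * (1 - cc) ^ (s / (100 * u)) / (1 - hh p (4 * s) (18 * s))

/-- F-FOUR. The decay of the characteristic function, at the scale `s = 20 k0 2^A`.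
Proof. `hh p (4s) (18s) ≤ ρ0 < 1` for `p ≤ 1/2`: by `hh_mono_param` take `p = 1/2`, and by `hh_dual`
`1 - hh (1/2) (4s) (18s) = hh (1/2) (18s + 1) (4s - 1) ≥ (1/2)^N` (`Pool.Agent.Y244.PC.hh_long`).
If `|θ| ≤ 2^16 / (b M)` (`M = s^(91/48)`) use `‖·‖ ≤ Ex q` (A-CEX, `0 ≤ gg ≤ 1`). The left side is
even in `θ` (complex conjugation). Let `θ > 0`. Let `K = 4 ≥ 2^(91/48)`. If `θ b ≤ 1` and
`θ b ((2^(A-4)))^(91/48) ≥ 1`-type conditions hold, choose `a' ≤ A - 4` with
`1/4 ≤ θ b (2^a')^(91/48) ≤ 1`, `m = 2^a'`, `u = k0 m`: then `20u ∣ s`, `200u ≤ s`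
(`s = 20 k0 2^A ≥ 320 u`), C-ONE (for `m`, with `K = 4`) gives the hypothesis of F-STRIP (its window
`200 k0 m` is at most `20 k0 2^A`), and the bound is `C Ex q (1 - c)^(2^(A - a') / 5)`, where
`2^(A-a')` is of order `(θ M)^(48/91)` (up to constants depending on `k0`, `b`); since `(1-c)^x`
decreases faster than any power of `x`, this is at most `C' Ex q / (1 + θ M)^6`. If `1 < θ b` and
`θ ≤ π` use C-BIG with `θ0 = 1/b` and `m = 1`, `u = k0`: the bound is `C Ex q (1-c)^(2^A/5)`. For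
the small values of `A` (`A ≤ 4` or so) the trivial bound suffices. -/
def S_FOUR : Prop := ∀ k0 : ℕ, K0P k0 → ∀ κ a : ℝ, 0 < κ → 0 < a → ∃ C : ℝ, 0 < C ∧
  ∀ (p : ℝ) (A s n : ℕ) (o : Vtx), s = 20 * k0 * 2 ^ A → NW κ a p s → 10 * s ≤ n → o.1 < s →
  ∀ q : Finset Edg → ℝ, (∀ F, 0 ≤ q F) →
  (∀ F, q F = q (F \ LRE s (5 * s) (-(9 * (s : ℤ))) (9 * s))) →
  ∀ θ : ℝ, |θ| ≤ Real.pi →
  ‖CEx (fun _ => p) (boxE n) (fun F => ((q F * gg (8 * s) o F : ℝ) : ℂ) *
      ei (θ * (Sz n o F : ℝ)))‖ ≤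
    C * Ex (fun _ => p) (boxE n) q / (1 + |θ| * (s : ℝ) ^ (91 / 48 : ℝ)) ^ 6

/-- F-DIFF. Bounds for the law at one scale and its differences.
Proof. Take `q F = ind (Arm (s - 1) F)` (an arm of the origin to distance `s - 1`, `H974.Arm`), which
does not look at the strip, `Ex q = arm p (s - 1) ≤ ar (s - 1) ≤ C s^(-5/48)`. If
`gg (8s) 0 F ≠ 0` then `fl (8s) 0 0 F` and so `Arm (s-1) F` (`first_exit`): `q gg = gg`. Apply F-FOUR
(`o = 0`), A-INV with `X = Sz n 0`, `M = s^(91/48)`, and B-SYM (factor `4`). -/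
def S_DIFF : Prop := ∀ k0 : ℕ, K0P k0 → ∀ κ a : ℝ, 0 < κ → 0 < a → ∃ C : ℝ, 0 < C ∧
  ∀ (p : ℝ) (A s n k : ℕ), s = 20 * k0 * 2 ^ A → NW κ a p s → 10 * s ≤ n →
    HH p n s k ≤ C * (s : ℝ) ^ (-2 : ℝ) ∧
    |HH p n s (k + 1) - HH p n s k| ≤ C * (s : ℝ) ^ (-(187 / 48) : ℝ) ∧
    |HH p n s (k + 2) - 2 * HH p n s (k + 1) + HH p n s k| ≤ C * (s : ℝ) ^ (-(139 / 24) : ℝ)

/-- F-TAIL. Clusters which stay in a box are rarely large.
Proof. If the cluster of the origin does not reach the boundary of `[-8s, 8s]²` it is the cluster in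
`boxE (8s)` (`Q291.CS.stay`), so `x ≤ Sz` implies `Vol x (F ∩ boxE (8s))`, an increasing event, so
the probability is at most the one for `p = 1/2` (`Pr_mono_param`), and `Q291.CS.short_crit` with
`m = s`, `boxE (8s) ⊆ boxE (33s)` gives `A s^(-5/48) exp (-c x / s^(91/48))`. -/
def S_TAIL : Prop := ∃ c C : ℝ, 0 < c ∧ 0 < C ∧ ∀ (p : ℝ) (s n : ℕ), 0 ≤ p → p ≤ 1 / 2 → 1 ≤ s →
  8 * s ≤ n → ∀ x : ℝ, (s : ℝ) ^ (91 / 48 : ℝ) ≤ x →
  Pr (fun _ => p) (boxE n) (fun F => x ≤ (Sz n (0, 0) F : ℝ) ∧ ¬ ∃ i, fl (8 * s) (0, 0) i F) ≤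
    C * (s : ℝ) ^ (-(5 / 48) : ℝ) * Real.exp (-(c * (x / (s : ℝ) ^ (91 / 48 : ℝ))))

/-- F-INF. The law of the cluster size in finite volume.
Proof. `{ω | (cluster0 ω).encard = N}` is the difference of the increasing events
`{N ≤ encard}` and `{N + 1 ≤ encard}`. If the cluster (in the infinite lattice) has `N` vertices it
is in `[-N, N]²`, all its edges are in `boxE n` and `Sz n 0` of the configuration in `boxE n` is `N`.
Conversely if `Sz n 0 = N ≤ n - 1` for the configuration in the box, its cluster in the box is a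
connected set of `N` vertices containing the origin, so it is in `[-(n-1), n-1]²`, and so it is the
cluster in the infinite lattice. `Q291.CS.law_vol`, `Pool.Agent.H160R2.CV.InfAux.encard_iff` and the
proof of `InfAux.law_box` (for `bondLaw p`) show how to pass from `bondLaw` to `Pr`; the sum over
`v ∈ bx n` in `Sz` is a finite set of vertices. -/
def S_INF : Prop := ∀ (p : unitInterval) (N n : ℕ), N + 1 ≤ n →
  pf p N = Pr (fun _ => (p : ℝ)) (boxE n) (fun F => Sz n (0, 0) F = N)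

/-- F-R1. A nonnegative sequence with small differences and small sum is small.
Proof. Let `x = h N`, `j ≤ min (x / (2Λ)) (N / 2)`: `h (N - j) ≥ x - j Λ ≥ x / 2`. There are at least
`min (x / (2Λ)) (N / 2)` such `j ≥ 0` (count `j = 0`), so the sum is at least `x / 2` times this
minimum. (For `Λ = 0` all `j ≤ N / 2` are allowed: second alternative.) -/
def S_R1 : Prop := ∀ (h : ℕ → ℝ) (Λ T : ℝ) (N : ℕ), 1 ≤ N → (∀ k, 0 ≤ h k) → 0 ≤ Λ →
  (∀ k, |h (k + 1) - h k| ≤ Λ) →
  (∑ k ∈ (range (N + 1)).filter (fun k => N ≤ 2 * k), h k) ≤ T →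
  (h N) ^ 2 ≤ 4 * Λ * T ∨ h N ≤ 4 * T / N

/-- F-R2. A bounded sequence with small second differences has small differences.
Proof. Let `D = h (N+1) - h N`, say `D > 0`. For `0 ≤ j ≤ min (D / (2 Λ)) N` the difference
`h (N+j+1) - h (N+j) ≥ D - j Λ ≥ D / 2`. With `J = ⌊min (D / (2Λ)) N⌋` this gives
`S ≥ h (N+J+1) - h N ≥ (J + 1) D / 2 ≥ min (D / (2Λ)) N * D / 2`. The case `D < 0` is similar. -/
def S_R2 : Prop := ∀ (h : ℕ → ℝ) (Λ S : ℝ) (N : ℕ), 1 ≤ N → 0 ≤ Λ →
  (∀ k, N ≤ k → k ≤ 2 * N + 1 → 0 ≤ h k ∧ h k ≤ S) →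
  (∀ k, |h (k + 2) - 2 * h (k + 1) + h k| ≤ Λ) →
  (h (N + 1) - h N) ^ 2 ≤ 4 * Λ * S ∨ |h (N + 1) - h N| ≤ 2 * S / N

/-- F-TL. The tail of the cluster size in finite volume.
Proof. `Q291.CS.upper` for the tail `tl p N`, `N = ⌈y⌉`; `y ≤ Sz n 0 F` implies `Vol N F`
(`Pool.Agent.H160R2.CV.Vol`), and `Q291.CS.vol_ge` (with `x = N`) bounds the probability in
`boxE n` by `tl p N`. -/
def S_TL : Prop := ∃ c C : ℝ, 0 < c ∧ 0 < C ∧ ∀ (p : ℝ) (n : ℕ), 0 ≤ p → p ≤ 1 / 2 →
  ∀ y : ℝ, 1 ≤ y → Pr (fun _ => p) (boxE n) (fun F => y ≤ (Sz n (0, 0) F : ℝ)) ≤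
    C * y ^ (-(5 / 91) : ℝ) * Real.exp (-(c * (y * (1 / 2 - p) ^ (91 / 36 : ℝ))))

/-- F-UPH. The clusters reaching scale `s`, at sizes `k` at least of order `s^(91/48)`.
Proof. Let `M = s^(91/48) ≤ B k`, `t = 1/2 - p`, `e k = exp (-c k t^(91/36))`. F-R1 for
`h = HH p n s` with `Λ = C s^(-187/48)` (F-DIFF) and `T = C (k/2)^(-5/91) e (k/2)` (F-TL, as the sum of
`h j` over `j ≥ k/2` is at most `Pr (k/2 ≤ Sz)`): either `h k ≤ C s^(-187/96) k^(-5/182) e (k/4)`,
or `h k ≤ 4 T / k ≤ C k^(-96/91) e (k/2)`, which is at most the same since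
`k^(-96/91) = k^(-5/182) s^(-187/96) (M / k)^(187/182)`. Then F-R2 on `[k, 2k+1]` with this bound as
`S` and `Λ = C s^(-139/24)` (F-DIFF): either `|Δ| ≤ C s^(-139/48 - 187/192) k^(-5/364) e (k/8)`
(`139/48 + 187/192 = 743/192`) or `|Δ| ≤ 2 S / k`, and
`s^(-187/96) k^(-5/182) / k = s^(-743/192) k^(-5/364) (M / k)^(369/364)`. -/
def S_UPH : Prop := ∀ k0 : ℕ, K0P k0 → ∀ κ a B : ℝ, 0 < κ → 0 < a → 1 ≤ B →
  ∃ c C : ℝ, 0 < c ∧ 0 < C ∧ ∀ (p : ℝ) (A s n k : ℕ), s = 20 * k0 * 2 ^ A → NW κ a p s →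
  10 * s ≤ n → 1 ≤ k → (s : ℝ) ^ (91 / 48 : ℝ) ≤ B * k →
  HH p n s k ≤ C * ((s : ℝ) ^ (-(187 / 96) : ℝ) * (k : ℝ) ^ (-(5 / 182) : ℝ)) *
    Real.exp (-(c * (k * (1 / 2 - p) ^ (91 / 36 : ℝ)))) ∧
  |HH p n s (k + 1) - HH p n s k| ≤
    C * ((s : ℝ) ^ (-(743 / 192) : ℝ) * (k : ℝ) ^ (-(5 / 364) : ℝ)) *
      Real.exp (-(c * (k * (1 / 2 - p) ^ (91 / 36 : ℝ))))

/-- F-UPD. The clusters reaching scale `s` but not scale `2s`.
Proof. Let `h = HH p n s - HH p n (2s)`. If the cluster of `0` reaches a side of `[-16s,16s]²`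
(inside this box), it reaches a side of `[-8s, 8s]²` inside this box (`first_exit`), so `h k` is the
probability that `Sz = k`, scale `s` is reached and scale `2s` is not, and `h ≥ 0`. F-DIFF for `s`
and `2s` bounds the first and second differences. `T = Σ_{j ≥ k/2} h j` is at most
`C k^(-5/91) exp (-c k t^(91/36))` (F-TL) and at most `C s^(-5/48) exp (-c k / M)`, `M = s^(91/48)`
(F-TAIL for the scale `2s` if `k / 2 ≥ (2s)^(91/48)`; if `k / 2` is smaller use that the scale `s`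
is reached with probability at most `C s^(-5/48)`, `arm p (8s) ≤ ar (8s)`), so it is at most the square
root of the product, `C k^(-5/182) s^(-5/96) exp (-c k / (2M)) exp (-c k t^(91/36) / 2)`. F-R1 gives
`h k ≤ C s^(-187/96 - 5/192) k^(-5/364) exp (…)` (`187/96 + 5/192 = 379/192`) or
`h k ≤ 4 T / k`, where `k^(-5/182 - 1) s^(-5/96) = s^(-379/192) k^(-5/364) (M / k)^(369/364)`. F-R2
gives the second claim in the same way: `139/48 + 379/384 = 1491/384`, and
`s^(-379/192) k^(-5/364 - 1) = s^(-1491/384) k^(-5/728) (M/k)^(733/728)`. -/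
def S_UPD : Prop := ∀ k0 : ℕ, K0P k0 → ∀ κ a B : ℝ, 0 < κ → 0 < a → 1 ≤ B →
  ∃ c C : ℝ, 0 < c ∧ 0 < C ∧ ∀ (p : ℝ) (A s n k : ℕ), s = 20 * k0 * 2 ^ A →
  NW κ a p (2 * s) → 20 * s ≤ n → 1 ≤ k → (s : ℝ) ^ (91 / 48 : ℝ) ≤ B * k →
  0 ≤ HH p n s k - HH p n (2 * s) k ∧
  HH p n s k - HH p n (2 * s) k ≤
    C * ((s : ℝ) ^ (-(379 / 192) : ℝ) * (k : ℝ) ^ (-(5 / 364) : ℝ)) *
      Real.exp (-(c * (k / (s : ℝ) ^ (91 / 48 : ℝ)))) *
      Real.exp (-(c * (k * (1 / 2 - p) ^ (91 / 36 : ℝ)))) ∧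
  |(HH p n s (k + 1) - HH p n (2 * s) (k + 1)) - (HH p n s k - HH p n (2 * s) k)| ≤
    C * ((s : ℝ) ^ (-(1491 / 384) : ℝ) * (k : ℝ) ^ (-(5 / 728) : ℝ)) *
      Real.exp (-(c * (k / (s : ℝ) ^ (91 / 48 : ℝ)))) *
      Real.exp (-(c * (k * (1 / 2 - p) ^ (91 / 36 : ℝ))))

/-- F-UP. Upper bounds for the law of the cluster size and its differences, uniformly for
`p ≤ 1/2`.
Proof. Let `t = 1/2 - p`, `n` large, `f k = Pr (Sz n 0 = k)` for `k ≤ N + 1` (F-INF). If `p < 1/4`,
`t ≥ 1/4` and F-TL alone suffices (`f N ≤ Pr (N ≤ Sz)`; polynomial factors are absorbed by half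
of the exponential). Let `p ≥ 1/4`. `Pool.Agent.W424.NC.nearG` for `n0 = ⌈N^(48/91)⌉` gives `κ, a`
(absolute) and `m ≤ n0` with `NW κ a p (4m)` and (`m = n0` or `1 ≤ C m t^(4/3)`). Let `A` be the
largest integer with `20 k0 2^A ≤ 4m` (`k0` from C-K0); if there is none, `m` is bounded, so `N` is bounded (the
claim is trivial, as `N t^(91/36)` is bounded) or `t ≥ c` (the tail bound suffices). Put
`s_i = 20 k0 2^i`, `i ≤ A`, `s = s_A ≥ 2m`. Then `f k = g k + Σ_{i < A} (HH p n s_i k -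
HH p n s_{i+1} k) + HH p n s_A k`, where `g k`, the probability that `Sz = k` and no side of
`[-8 s_0, 8 s_0]²` is reached, vanishes for `k > (16 s_0 + 1)^2`; for smaller `N` the claim is
trivial unless `t` is large, which is covered as before. `M_i = s_i^(91/48) ≤ B N` for all
`i ≤ A`. F-UPH at `s_A`: if `m = n0`, `s_A ≥ c N^(48/91)` and
`s_A^(-187/96) N^(-5/182) ≤ C N^(-96/91)`; if `1 ≤ C m t^(4/3)` then with `x = N / M_A`,
`N t^(91/36) ≥ c x` and `s_A^(-187/96) N^(-5/182) = N^(-96/91) x^(187/182)`, the power of `x` being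
absorbed by half of the exponential. F-UPD for `i < A`: with `x_i = N / M_i`,
`s_i^(-379/192) N^(-5/364) = N^(-96/91) x_i^(379/364)` and `Σ_i x_i^(379/364) exp (-c x_i)` is
bounded, because `x_{i} = 2^(91/48) x_{i+1}` and `x_A ≥ 1/B`. The differences in the same way
(`s^(-743/192) N^(-5/364) = N^(-187/91) x^(743/364)`,
`s_i^(-1491/384) N^(-5/728) = N^(-187/91) x_i^(1491/728)`). -/
def S_UP : Prop := ∃ c C : ℝ, 0 < c ∧ 0 < C ∧ ∀ p : unitInterval, (p : ℝ) ≤ 1 / 2 → ∀ N : ℕ,
  1 ≤ N →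
  pf p N ≤ C * (N : ℝ) ^ (-(96 / 91) : ℝ) *
    Real.exp (-(c * (N * (1 / 2 - (p : ℝ)) ^ (91 / 36 : ℝ)))) ∧
  |pf p (N + 1) - pf p N| ≤ C * (N : ℝ) ^ (-(187 / 91) : ℝ) *
    Real.exp (-(c * (N * (1 / 2 - (p : ℝ)) ^ (91 / 36 : ℝ))))

end Q78.FE
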