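import Pool.Agent.Q78.FE.Def2
import Pool.Agent.Q78.FE.Stm

/-!
Project FE (helper78): statements of the parts, with proofs in words. Second part: the lower bound
for the law of the cluster size.

Idea. An array of about `T²` gadgets of size `u` is connected to the cluster of the origin; each
gadget is either in its natural state or in a high state in which it has at least `H m^(91/48)`
vertices. In the natural state the cluster has (with large probability) at most `C T² u^(91/48)`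
vertices, in the high state of all the gadgets at least `c H T² m^(91/48)`. When the gadgets are
switched one after the other the size passes every `N` between these numbers, with steps of size
`D = T^(1/2) m^(91/48)`, much smaller than the scale `M = s^(91/48)`, `s = 20 T u`, on which the law of
the cluster size is smooth by F-FOUR and A-INV.
-/

set_option autoImplicit false

namespace Q78.FE

open Finset H974 Pool.Agent.H160R2.CV Pool.Agent.H160R2.CV.Quad H362P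

/-! ### Part G: general lemmas -/

/-- G-SMO. A sequence with small differences and a large sum is large.
Proof. For `N ≤ k + D`, `k ≤ N + D` we have `h k ≤ h N + D * Λ` (at most `D` steps), and there are at
most `2 D + 1` such `k`. -/
def S_SMO : Prop := ∀ (h : ℕ → ℝ) (Λ ν : ℝ) (N D : ℕ), 0 ≤ Λ → (∀ k, 0 ≤ h k) →
  (∀ k, |h (k + 1) - h k| ≤ Λ) →
  ν ≤ ∑ k ∈ (range (N + D + 1)).filter (fun k => N ≤ k + D), h k →
  ν ≤ (2 * D + 1) * (h N + D * Λ)

/-- G-LOCM. Decoupling of a local function from a family of increasing events.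
Proof. Let `near` be the set of the `i ∈ I` for which `S i` meets `T`, `far` the others.
`f * ind (all V) ≤ f * ind (all far V)`; the two factors are independent (`f` looks at `T`, the
event at `U \ T`; `Ex_mul_indep`), so `Ex (f * ind (all V)) ≤ Ex f * Pr (all far V)`. By
`Pr_harris` (repeated) `Pr (all V) ≥ Pr (all far V) * Π_{near} Pr (V i) ≥ Pr (all far V) * c^k`
(`c ≤ 1`). -/
def S_LOCM : Prop := ∀ {E ι : Type} [DecidableEq E] [DecidableEq ι] (p : E → ℝ), Ok p →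
  ∀ (U : Finset E) (I : Finset ι) (V : ι → Finset E → Prop) (S : ι → Finset E) (T : Finset E)
    (f : Finset E → ℝ) (c : ℝ) (k : ℕ),
  (∀ i ∈ I, IncrE U (V i)) → (∀ i ∈ I, ∀ F, V i F ↔ V i (F ∩ S i)) → (∀ F, f F = f (F ∩ T)) →
  (∀ F, 0 ≤ f F) → 0 ≤ c → c ≤ 1 → (∀ i ∈ I, ¬ Disjoint (S i) T → c ≤ Pr p U (V i)) →
  (I.filter (fun i => ¬ Disjoint (S i) T)).card ≤ k →
  c ^ k * Ex p U (fun F => f F * ind (∀ i ∈ I, V i F)) ≤
    Ex p U f * Pr p U (fun F => ∀ i ∈ I, V i F)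

/-- G-HYB. Switching the blocks one after the other.
Proof. Write `P k F = r F * Π_{i < k} η i F`. First claim: induction on `k`: in
`Ex (r * g * Π_{i < k+1} η i)` average over the block `B k` (`Ex_union` for
`U = (U \ B k) ∪ B k`): `r`, `g` and the `η i` with `i < k` do not change, and the mean of `η k` is
`1` where `r` is not zero (`g` does not depend on the block `k`, which is one of the blocks
`i < k + 1`). Second claim: it is enough to show, for `j < K`,
`Ex (P j * ind (X ≤ N)) - Ex (P (j+1) * ind (X ≤ N)) ≤ Ex (P j * ind (|X - N| ≤ D)) +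
Ex (P (j+1) * ind (D < y j))`, since the last term is `Ex (r * η j * ind (D < y j))` by the first
claim (with `k = j` and `g = η j * ind (D < y j)`). Average over the block `B j`, let `F0` be the
configuration outside and suppose `r ≠ 0` (otherwise all terms vanish). `P j` does not depend on
the block, `X = X' + y j` with `X'` independent of the block. If `N < X'`: `X > N` and the left side
is zero. If `X' ≤ N - D`: the mean of `ind (X ≤ N)` is at most `1`, and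
`η j * ind (X ≤ N) ≥ η j - η j * ind (D < y j)` has mean at least
`1 - mean (η j * ind (D < y j))`. If `N - D < X' ≤ N`: `X ≤ N` implies `|X - N| ≤ D` as `X ≥ X'`. -/
def S_HYB : Prop := ∀ {E : Type} [DecidableEq E] (p : E → ℝ), Ok p →
  ∀ (U : Finset E) (K : ℕ) (B : ℕ → Finset E), (∀ i < K, B i ⊆ U) →
  ∀ (r X : Finset E → ℝ) (y η : ℕ → Finset E → ℝ), (∀ F, 0 ≤ r F) →
  (∀ i < K, ∀ F, 0 ≤ η i F) → (∀ i < K, ∀ F, 0 ≤ y i F) →
  (∀ i < K, ∀ F F', F ⊆ U → F' ⊆ U → F \ B i = F' \ B i →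
    r F' = r F ∧ (r F ≠ 0 → X F' - y i F' = X F - y i F) ∧
    ∀ j < K, j ≠ i → η j F' = η j F ∧ y j F' = y j F) →
  (∀ i < K, ∀ F, F ⊆ U → r F ≠ 0 → Ex p (B i) (fun G => η i ((F \ B i) ∪ G)) = 1) →
  (∀ k ≤ K, ∀ g : Finset E → ℝ,
    (∀ i < k, ∀ F F', F ⊆ U → F' ⊆ U → F \ B i = F' \ B i → g F' = g F) →
    Ex p U (fun F => r F * g F * ∏ i ∈ range k, η i F) = Ex p U (fun F => r F * g F)) ∧
  ∀ N D : ℝ, 0 ≤ D →
    Ex p U (fun F => r F * ind (X F ≤ N)) ≤
      Ex p U (fun F => r F * (∏ i ∈ range K, η i F) * ind (X F ≤ N)) +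
      ∑ j ∈ range K, (Ex p U (fun F => r F * (∏ i ∈ range j, η i F) * ind (|X F - N| ≤ D)) +
        Ex p U (fun F => r F * η j F * ind (D < y j F)))

/-! ### Part H: the cells -/

/-- H-LOCV. Locality and monotonicity of the event of a cell.
Proof. `Gd` and `Lk` by B-LOC (they look at `bo z (90u)` without the block). `hz` looks at
`(F \ Bl z u) ∩ bo z (9u)` and is increasing (B-LOC for `Hb`, `Pr_mono`-type lemma). The links look
at edges with `x`-coordinates between `z.1 + 3u` and `z.1 + 197u` (resp. `y`-coordinates), which are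
in `bo z (197u)` and not in the block. The last part: the edges of the block of another cell are at
distance at least `198u` from `z`. -/
def S_LOCV : Prop := ∀ (c p : ℝ) (z : Vtx) (u m : ℕ), 0 ≤ p → p ≤ 1 → 1 ≤ u →
  ∀ F F' : Finset Edg,
  (F ∩ (bo z (197 * u) \ Bl z u) = F' ∩ (bo z (197 * u) \ Bl z u) →
    (Vz c p z u m F ↔ Vz c p z u m F')) ∧
  (F ⊆ F' → Vz c p z u m F → Vz c p z u m F') ∧
  (F \ Bl z u = F' \ Bl z u → (Vz c p z u m F ↔ Vz c p z u m F')) ∧
  (∀ z' : Vtx, 200 * u ≤ nv (z - z') → F \ Bl z' u = F' \ Bl z' u →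
    (Vz c p z u m F ↔ Vz c p z u m F'))

/-- H-HIG. Properties of the high state.
Proof. `Hc y z m` looks only at `bo z (5m) ⊆ Bl z u` (`CA` looks at `bo z (3m)`; `Far x (4m)` is
`LA x (4m)`, which looks at `bo x (4m)`; `5m ≤ 2 k0 m`). `Hb z u` looks at `bo z (9u)` (B-LOC).
(1), (2), (3) are clear from this (`pz` depends only on `(F \ Bl z u) ∩ bo z (9u)`). (4): the mean of
the indicator over the block is `pz`, which does not change with `G`. (5), (6) clear
(`ind ≤ 1`, `x / x ≤ 1`). (7): let `v` with `nv (v - z) ≤ m`, `Hb z u F v`, and `x` with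
`nv (x - z) ≤ m`, `Far x (4m) F`. Both are connected to distance `3m` from `z`, inside `bo z (3m)`
(`first_exit`; `v` is connected in `F ∩ bo z (9u)` to a radial point and to distance `9u ≥ 3m`), so
by `CA_meet` for `F ∩ bo z (3m)` they are connected inside `bo z (3m) ⊆ bo z (9u)`, hence `Hb z u F x`;
so the sum in `Hc` is at most `Yz z u F` (`m ≤ 9u`). (8): `Pr_harris` on the block for the
increasing events `∃ v, …` and `Hc y z m ((F \ Bl z u) ∪ G) ↔ Hc y z m G`. (9) monotonicity. -/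
def S_HIG : Prop := ∀ (p y : ℝ) (z : Vtx) (k0 u m : ℕ), 0 ≤ p → p ≤ 1 → 3 ≤ k0 → 1 ≤ m →
  u = k0 * m → ∀ F F' : Finset Edg,
  (F ∩ bo z (9 * u) = F' ∩ bo z (9 * u) → (Hi y z u m F ↔ Hi y z u m F') ∧
    pz p y z u m F = pz p y z u m F' ∧ et p y z u m F = et p y z u m F') ∧
  (F \ Bl z u = F' \ Bl z u → pz p y z u m F = pz p y z u m F') ∧
  (Hc y z m F ↔ Hc y z m (F ∩ Bl z u)) ∧
  (0 < pz p y z u m F →
    Ex (fun _ => p) (Bl z u) (fun G => et p y z u m ((F \ Bl z u) ∪ G)) = 1) ∧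
  0 ≤ et p y z u m F ∧
  et p y z u m F * pz p y z u m F ≤ 1 ∧
  (Hi y z u m F → y ≤ Yz z u F) ∧
  (∀ c : ℝ, c ≤ Pr (fun _ => p) (Bl z u) (Hc y z m) → c * hz p z u m F ≤ pz p y z u m F) ∧
  (F ⊆ F' → Hi y z u m F → Hi y z u m F')

/-- H-CNT. The high event has positive probability, for every constant `H`.
Proof. Let `R = 2^ρ`, `m = R m'`, `i0 = 2R`, `n = (4 i0 + 3) m'`, `K = 2 i0 + 1`,
`y = a / 2 * m'^(91/48)`. The intersection of the following increasing events has probability at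
least a constant depending only on `κ, a, ρ` (`Pr_harris`, shifted to `z`): `CA z m (3m)`; the grid
`Pool.Agent.Y244.PC.Grid n m' K` of `2 (K + 1)` crossings, each of probability at least
`κ^(2j+1)` with `16 + 15 j ≥ 2 (4 i0 + 3)` (`Pool.Agent.W424.NC.hh_long`, `hh_mono`); and for all
`i, j < K` the count events `Q291.CS.CtP (cen n m' i j) y m'` (`Q291.CS.count_p`; the shift with
`Q291.CS.Ex_sh`). The centres are `(4 m' (i - i0), 4 m' (j - i0))`. On this intersection, the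
vertices counted (`Q291.CS.CtP_set`) are all connected to one vertex (`Y244.PC.grid_meet` or
`Q291.CS.grid_meet2`, as in the proof of `Q291.CS.grid_vol`). Those in the cells with
`4 |i - i0| + 1 ≤ R`, `4 |j - i0| + 1 ≤ R` are at distance at most `m` from `z`, and they are
connected to vertices of the cell `i = 2 i0`, at distance at least `8m - 2m`, so `Far x (4m)`. Their
number is at least `(R/4)² y = (a/32) R^(5/48) m^(91/48)` for `R ≥ 4`, which is at least
`H m^(91/48)` for large `ρ`. -/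
def S_CNT : Prop := ∀ κ a H : ℝ, 0 < κ → 0 < a → 0 < H → ∃ (ρ : ℕ) (c : ℝ), 0 < c ∧ c ≤ 1 ∧
  ∀ (p : ℝ) (m' m : ℕ), 1 ≤ m' → m = 2 ^ ρ * m' → NW κ a p (100 * m) →
  ∀ (z : Vtx) (S : Finset Edg), bo z (5 * m) ⊆ S →
    c ≤ Pr (fun _ => p) S (Hc (H * (m : ℝ) ^ (91 / 48 : ℝ)) z m)

/-- H-VP. The event of a cell has positive probability.
Proof. C-YIN: `c ≤ Pr (Gd ∧ Lk ∧ δ m^(91/48) ≤ Yi)`, and `Yi > 0` implies that there is `v` with
`nv (v - z) ≤ m` and `Hb z u F v`. Since `Gd` and `Lk` do not look at the block (B-LOC),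
`Pr (Gd ∧ Lk ∧ ∃ v …) = Ex (ind (Gd ∧ Lk) * hz) ≤ Pr (Gd ∧ Lk ∧ c/2 ≤ hz) + c/2` (`Ex_union` for
`S = (S \ Bl) ∪ Bl`). The links have probability at least `κ` (rectangles `194u × 20u`,
`hh p (194u) (20u) ≥ hh p (16 * 20u) (20u) ≥ κ`, `H12S.Win.pri`, `hh_mono`). `Pr_harris` with H-LOCV
for the monotonicity. Take `c0 = min 1 (κ² c / 2)`. -/
def S_VP : Prop := ∀ k0 : ℕ, 3 ≤ k0 → ∀ κ a : ℝ, 0 < κ → 0 < a → ∃ c0 : ℝ, 0 < c0 ∧ c0 ≤ 1 ∧
  ∀ (p : ℝ) (m : ℕ), 1 ≤ m → NW κ a p (200 * k0 * m) → VP c0 p (k0 * m) m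

/-- H-TY. The tail of the mass of a gadget.
Proof. As in C-YEX, `Hb z u F v` implies `Far v (3u) F`, so `LA v (8 m1) F` with
`m1 = 3u / 8 ≥ 1`. By monotonicity take `p = 1/2`. Cover `bxz z (9u)` by four boxes `B_i` of radius
at most `24 m1` (radius `⌈9u/2⌉ ≤ 24 m1` for `u ≥ 3`). By `Q291.CS.expo` (second part, after a shift),
`Ex (exp (t * VV (8 m1) B_i)) ≤ 2` for `t m1^(91/48) = c`, so by Markov
`Pr (x/4 * u^(91/48) < VV (8 m1) B_i) ≤ 2 exp (- t x u^(91/48) / 4)`, and `u ≥ m1`. -/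
def S_TY : Prop := ∃ c C : ℝ, 0 < c ∧ 0 < C ∧ ∀ (p : ℝ) (u : ℕ), 0 ≤ p → p ≤ 1 / 2 → 3 ≤ u →
  ∀ (z : Vtx) (S : Finset Edg) (x : ℝ), 0 ≤ x →
    Pr (fun _ => p) S (fun F => x * (u : ℝ) ^ (91 / 48 : ℝ) < Yz z u F) ≤
      C * Real.exp (-(c * x))

/-- H-SUM. The masses of disjoint attached gadgets add up to at most the size of the cluster.
Proof. If the gadget at `z` is attached, every `v` with `Hb z u F v` is in the cluster of `o` (two
radial points of the gadget are connected in `F ∩ An z u`: `H362P.CA_meet` for `F ∩ An z u`), and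
`nv (v - z) ≤ 9u`, so `v ∈ bx n`. The boxes `bxz z (9u)` are disjoint. -/
def S_SUM : Prop := ∀ (n u : ℕ) (o : Vtx) (J : Finset Vtx) (F : Finset Edg), 1 ≤ u →
  (∀ z ∈ J, att o z u F ∧ bxz z (9 * u) ⊆ bx n) →
  (∀ z ∈ J, ∀ z' ∈ J, z ≠ z' → 18 * u < nv (z - z')) →
  ∑ z ∈ J, Yz z u F ≤ (Sz n o F : ℝ)

/-- H-HUB. The hub of a cell.
Proof. `h` is given by `CA_meet` for the circuit `CA z (30u) (90u)`. The second part: `Lk` gives a
path from some `w` with `nv (w - z) ≤ 2u` to distance `90u`, outside the block; cut it at its first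
exit from the box of radius `9u` (`first_exit`): its edges are in `bo z (9u) \ bo z (2u) = An z u`, so
`Rad z u F w`. -/
def S_HUB : Prop := ∀ (z : Vtx) (u : ℕ) (F : Finset Edg), 1 ≤ u → Lk z u F → ∃ h : Vtx,
  (∀ w v : Vtx, nv (w - z) ≤ 30 * u → 90 * u ≤ nv (v - z) → Reach (↑F) w v → Reach (↑F) w h) ∧
  ∃ w, Rad z u F w ∧ Reach (↑F) w h

/-- H-CONK. The array, the arm and the long crossing are connected to the origin.
Proof. All the events look at the edges of `boxE (8s)`, so they hold for `F' = F ∩ boxE (8s)`.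
(i) The hubs (H-HUB, for `F'`) of all the cells are connected in `F'`: the horizontal link of the
cell `z` is a path from a vertex at distance at most `20u` from `z` to a vertex at distance `197u`
from `z`, whose end is at distance at most `20u` from the next centre `z'` and whose beginning is
at distance at least `90u` from `z'`; so both hubs are connected to the link. In the same way for
the vertical links. (ii) The arm connects the origin, the centre of the cell `(0, 0)`, to distance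
`100u`, so to the hub of this cell. (iii) For the gadgets `i ≤ -1`: `Gd` holds, and the radial point
`w` of H-HUB is connected to the hub and so to the origin: `att`. (iv) The long crossing: consider
the configuration `F'' = F ∩ RE (110u) (290u) (-290u) (200uL + 90u)`. The circuits
`CA (cz u 1 j) (30u) (90u)` and the vertical links of the cells `(1, j)` hold in `F''`, so by
`CA_meet` the links of the cells `(1, j)`, `-1 ≤ j < L`, are connected to each other in `F''`; the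
first one starts at height `-197u < 0` and the last one ends at height `200uL - 3u ≥ 2Tu` (as
`T ≥ 32`). So there is a top-bottom crossing of `[110u, 290u] × [0, 2Tu]` in `F''` (`sub_LR`, `sub_TB`
type lemma), and by `sub_LR` the long crossing contains a left-right crossing of the same
rectangle; by `cross_meet` they have a common vertex. So the right end of the long crossing, on
the line `x = 8s`, is connected to the origin in `F'`. -/
def S_CONK : Prop := ∀ (k0 T m u s L : ℕ), Pm k0 T m u s L → ∀ (c p : ℝ) (F : Finset Edg),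
  Ar c p u m L F → Arm (100 * u) F → HR u T s F →
  (∀ i j : ℤ, -(L : ℤ) ≤ i → i ≤ -1 → -(L : ℤ) ≤ j → j ≤ L → att (0, 0) (cz u i j) u F) ∧
  fl (8 * s) (0, 0) 0 F

/-! ### Part I: conditional expectations -/

/-- I-LOCW. Decoupling for the weights `Wo` and `Wt`.
Proof. Let `A = Ar`, `Q = ¬ Cr`. `A` is increasing and looks at `boxE s` (H-LOCV; the cells are in the
box of radius `200uL + 197u < s`), `Q` is decreasing and looks only at edges outside `boxE (10s)`
(`Cr_loc`), so `Ex Wo = Pr A * Pr Q` and `Ex Wt = Pr (A ∧ Arm) * Pr Q`. (1): by Harris (`f * ind A`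
increasing, `Q` decreasing) `Ex (f * Wo) ≤ Ex (f * ind A) * Pr Q`, and G-LOCM with the family of
the cells `(i, j)`, `S (i,j) = bo (cz u i j) (197u)`, `k = 49`: only the cells at distance at most
`597u` from `v` are near, at most `6 * 6`. (2): the same with the additional member `Arm (100u)` of
the family (`S = boxE (100u)`), which is far since `nv v ≥ 200u`. (3): by independence and Harris
`Ex (Wt * ind HR) = Pr (A ∧ Arm ∧ HR) * Pr Q ≥ Pr (A ∧ Arm) * Pr HR * Pr Q` (`HR` looks at `boxE (8s)`).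
(4): Harris for `A` and `Arm`. (5): Harris for the `(L + 2) (2L + 1)` cells, and `Pr Q ≥ 1/2` by `K0P`. -/
def S_LOCW : Prop := ∀ (k0 T m u s L : ℕ), Pm k0 T m u s L → ∀ (c p : ℝ), 0 ≤ p → p ≤ 1 / 2 →
  VP c p u m → ∀ n : ℕ, 20 * k0 * s ≤ n →
  (∀ (v : Vtx) (f : Finset Edg → ℝ), (∀ F, 0 ≤ f F) → (∀ F F', F ⊆ F' → f F ≤ f F') →
    (∀ F, f F = f (F ∩ bo v (400 * u))) →
    c ^ 49 * Ex (fun _ => p) (boxE n) (fun F => f F * Wo c p k0 u m L s F) ≤
      Ex (fun _ => p) (boxE n) f * Ex (fun _ => p) (boxE n) (Wo c p k0 u m L s)) ∧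
  (∀ (v : Vtx) (f : Finset Edg → ℝ), (∀ F, 0 ≤ f F) → (∀ F F', F ⊆ F' → f F ≤ f F') →
    (∀ F, f F = f (F ∩ bo v (10 * u))) → 200 * u ≤ nv v →
    c ^ 49 * Ex (fun _ => p) (boxE n) (fun F => f F * Wt c p k0 u m L s F) ≤
      Ex (fun _ => p) (boxE n) f * Ex (fun _ => p) (boxE n) (Wt c p k0 u m L s)) ∧
  Pr (fun _ => p) (boxE n) (HR u T s) * Ex (fun _ => p) (boxE n) (Wt c p k0 u m L s) ≤
    Ex (fun _ => p) (boxE n) (fun F => Wt c p k0 u m L s F * ind (HR u T s F)) ∧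
  arm p (100 * u) * Ex (fun _ => p) (boxE n) (Wo c p k0 u m L s) ≤
    Ex (fun _ => p) (boxE n) (Wt c p k0 u m L s) ∧
  (K0P k0 → 1 / 2 * c ^ ((L + 2) * (2 * L + 1)) ≤ Ex (fun _ => p) (boxE n) (Wo c p k0 u m L s))

/-- I-PHR. The probability of the long crossing, uniformly in `T`.
Proof. `HR` is the left-right crossing of a rectangle of width `8s - 100u ≤ 160 T u` and height
`h = 2 T u`; `hh p (160 T u) h ≥ hh p (16 h + 75 h) h ≥ κ^11` by `hh_mono` and
`Pool.Agent.W424.NC.hh_long` with `j = 5`; `h ≤ s`. -/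
def S_PHR : Prop := ∀ (k0 T m u s L : ℕ), Pm k0 T m u s L → ∀ κ a p : ℝ, NW κ a p s →
  ∀ n : ℕ, 20 * k0 * s ≤ n → κ ^ 11 ≤ Pr (fun _ => p) (boxE n) (HR u T s)

/-- I-MASS. The mean size of the cluster in the natural state. The constant does not depend on
`T`.
Proof. On `Wt ≠ 0` and `HR` every `v` in the cluster of the origin has `nv v ≤ 20 k0 s` (else
`first_exit` and `last_exit` give `Cr (0,0) (10s) (20 k0 s)`). Far vertices, `288u < nv v ≤ 20 k0 s`:
such a `v` has `LA v u F`, an increasing event which looks at `bo v u`, of probability at most `ar u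
≤ C u^(-5/48)` (`Quad.pr_LA`, `Pr_mono_param`, `Q291.CS.ar_upper`); I-LOCW (2) and the sum over
`(40 k0 s + 1)²` vertices give `C c^(-49) s² u^(-5/48) Ex Wt`. Near vertices, `nv v ≤ 288u`: by H-CONK
the origin is connected to the line `x = 8s`, so `v` and the origin are both connected to distance
at least `96u`: their number is at most `f F = ind (QQ (96u) {0} F) * VV (96u) (bx (288u)) F`
(`Q291.CS.QQ`, `VV`), which is increasing and looks at `bo 0 (400u)`. By I-LOCW (1) and (4),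
`Ex (f * Wt) ≤ Ex (f * Wo) ≤ c^(-49) Ex f Ex Wo ≤ c^(-49) Ex f Ex Wt / arm p (100u)`; `Ex f ≤
C u^(-5/48) u^(91/48)` by `Q291.CS.mom_arm` (`m := 12u`, `k = 0`; `Q291.CS.Ex_le_half` for `p ≤ 1/2`),
`arm p (100u) ≥ a (100u)^(-5/48)` by `NW` (`100u ≤ s`), and `u^(91/48) ≤ s² u^(-5/48)`. So
`Ex (Sz * Wt * ind HR) ≤ C s² u^(-5/48) Ex Wt`, and by I-LOCW (3) and I-PHR
`Ex Wt ≤ κ^(-11) Ex (Wt * ind HR)`. -/
def S_MASS : Prop := ∀ (k0 : ℕ) (κ a c : ℝ), 0 < κ → 0 < a → 0 < c → ∃ C : ℝ, 0 < C ∧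
  ∀ (T m u s L : ℕ), Pm k0 T m u s L → ∀ p : ℝ, NW κ a p s → VP c p u m →
  ∀ n : ℕ, 20 * k0 * s ≤ n →
  Ex (fun _ => p) (boxE n)
      (fun F => (Sz n (0, 0) F : ℝ) * (Wt c p k0 u m L s F * ind (HR u T s F))) ≤
    C * ((s : ℝ) ^ 2 * (u : ℝ) ^ (-(5 / 48) : ℝ)) *
      Ex (fun _ => p) (boxE n) (fun F => Wt c p k0 u m L s F * ind (HR u T s F))

/-- I-HYBW. The switching inequality for the array. `K = L (2L + 1)`.
Proof. Apply G-HYB with `U = boxE n`, `B k = Bl (gk u L k) u`, `r = Wt * ind HR` (and `r = Wt` for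
the first claim), `X = Sz n (0,0)`, `y k = Yz (gk u L k) u`, `η k = et p y (gk u L k) u m`. The
hypotheses: `gk u L k` for `k < K` is the centre of a cell `(i, j)` with `-L ≤ i ≤ -1`, `-L ≤ j ≤ L`,
different for different `k`. `r` does not look at the blocks: H-LOCV for the cells,
`Arm (100u)` looks at `boxE (100u)`, `HR` at edges with `x ≥ 100u`, `Cr` at edges outside
`boxE (10s)`, and the block has centre at distance at least `200u` from the origin, to the left. If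
`r ≠ 0` all these gadgets are attached (H-CONK) and B-ADD gives the condition on `X - y k`. For
`Wt` alone only the first claim of G-HYB is needed (take `X = 0`, `y = 0` there). `η j` and `y j` look at
`bo (gk u L j) (9u)` only (H-HIG, B-LOC). If `Wt ≠ 0`: `c ≤ hz` at the centre, so by H-HIG (8)
`0 < c cH ≤ pz`, and H-HIG (4). This gives (1) and (2), where
`r η_j ≤ (c cH)^(-1) Wt` is used in the last term. (3): `0 ≤ et ≤ 1 / pz ≤ 1 / (c cH)` on
`Wt ≠ 0`; locality: all the events look at edges of `boxE (s-1)` or outside `boxE (10s)`, so not at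
the strip `LRE s (5s) (-9s) (9s) ⊆ boxE (9s)`. (4): if `QJ ≠ 0` for `J = K` and `HR`, then all the
gadgets are attached and in the high state, so `Sz ≥ K y` by H-SUM and H-HIG (7). -/
def S_HYBW : Prop := ∀ (k0 T m u s L : ℕ), Pm k0 T m u s L → ∀ (c cH y p : ℝ), 0 ≤ p → p ≤ 1 / 2 →
  0 < c → c ≤ 1 → 0 < cH → cH ≤ 1 → 0 ≤ y → (∀ z : Vtx, cH ≤ Pr (fun _ => p) (Bl z u) (Hc y z m)) →
  ∀ n : ℕ, 20 * k0 * s ≤ n →
  (∀ J ≤ L * (2 * L + 1), Ex (fun _ => p) (boxE n) (QJ c y p k0 u m L s J) =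
    Ex (fun _ => p) (boxE n) (Wt c p k0 u m L s)) ∧
  (∀ N D : ℝ, 0 ≤ D →
    Ex (fun _ => p) (boxE n) (fun F => Wt c p k0 u m L s F * ind (HR u T s F) *
        ind ((Sz n (0, 0) F : ℝ) ≤ N)) ≤
      Ex (fun _ => p) (boxE n) (fun F => QJ c y p k0 u m L s (L * (2 * L + 1)) F *
        ind (HR u T s F) * ind ((Sz n (0, 0) F : ℝ) ≤ N)) +
      ∑ J ∈ range (L * (2 * L + 1)),
        (Ex (fun _ => p) (boxE n) (fun F => QJ c y p k0 u m L s J F * ind (HR u T s F) *
            ind (|(Sz n (0, 0) F : ℝ) - N| ≤ D)) +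
          (c * cH)⁻¹ * Ex (fun _ => p) (boxE n) (fun F => ind (D < Yz (gk u L J) u F) *
            Wt c p k0 u m L s F))) ∧
  (∀ J ≤ L * (2 * L + 1), ∀ F, 0 ≤ QJ c y p k0 u m L s J F ∧
    (c * cH) ^ (L * (2 * L + 1)) * QJ c y p k0 u m L s J F ≤ 1 ∧
    QJ c y p k0 u m L s J F =
      QJ c y p k0 u m L s J (F \ LRE s (5 * s) (-(9 * (s : ℤ))) (9 * s))) ∧
  (∀ N : ℝ, N < (L * (2 * L + 1) : ℕ) * y →
    Ex (fun _ => p) (boxE n) (fun F => QJ c y p k0 u m L s (L * (2 * L + 1)) F *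
        ind (HR u T s F) * ind ((Sz n (0, 0) F : ℝ) ≤ N)) = 0)

/-- I-EXJ. There is an intermediate state in which the size is close to `N`.
Proof. Let `c` be from H-VP, `C1` from I-MASS, so with `s = 20 T k0 m`
`C1 s² u^(-5/48) = C1' T² m^(91/48)`; put `c1 = 4 C1'`, `H = 3200 * 4 * c1` (so that
`K H ≥ (T²/3200) H > 4 c1 T²`; note `K = L (2L+1) ≥ 2 L²`, `L ≥ T/80`) and let `ρ, cH` be from H-CNT.
With `y = H m^(91/48)`, `D = T^(1/2) m^(91/48)` and `r = Wt * ind HR`, `e = Ex r`: the left side of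
I-HYBW (2) is at least `e - Ex (Sz r) / N ≥ (3/4) e` (Markov, I-MASS, `N ≥ c1 T² m^(91/48)`); the first term
on the right vanishes (I-HYBW (4)); the tail terms: `Ex (ind (D < Yz) Wt) ≤ c^(-49) Pr (D < Yz) Ex Wt`
by I-LOCW (2) (`Yz` looks at `bo z (9u)`, and `nv (gk u L J) ≥ 200u`), H-TY bounds
`Pr (D < Yz) ≤ C exp (-c' T^(1/2))` (`D = x u^(91/48)` with `x = T^(1/2) k0^(-91/48)`) and
`Ex Wt ≤ κ^(-11) e` (I-LOCW (3), I-PHR); their sum is at most `K C'' exp (-c' T^(1/2)) e ≤ e / 4` for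
`T ≥ T0` (`K ≤ T²`). So the sum over `J < K` of the remaining terms is at least `e / 2`, and one of them is at
least `e / (2K)`. `Pr (Bl z u) (Hc …) ≥ cH` by H-CNT (`bo z (5m) ⊆ Bl z u`, `100 m ≤ s`). -/
def S_EXJ : Prop := ∀ (k0 : ℕ), K0P k0 → ∀ κ a : ℝ, 0 < κ → 0 < a →
  ∃ (c cH c1 H : ℝ) (ρ T0 : ℕ), 0 < c ∧ c ≤ 1 ∧ 0 < cH ∧ cH ≤ 1 ∧ 0 < c1 ∧ 0 < H ∧
  ∀ (T m' m u s L : ℕ), Pm k0 T m u s L → T0 ≤ T → 1 ≤ m' → m = 2 ^ ρ * m' → ∀ p : ℝ,
  NW κ a p s → VP c p u m ∧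
    (∀ z : Vtx, cH ≤ Pr (fun _ => p) (Bl z u) (Hc (H * (m : ℝ) ^ (91 / 48 : ℝ)) z m)) ∧
  ∀ n : ℕ, 20 * k0 * s ≤ n → ∀ N : ℝ,
  c1 * (T : ℝ) ^ 2 * (m : ℝ) ^ (91 / 48 : ℝ) ≤ N →
  N ≤ 4 * (c1 * (T : ℝ) ^ 2 * (m : ℝ) ^ (91 / 48 : ℝ)) →
  ∃ J < L * (2 * L + 1),
    Ex (fun _ => p) (boxE n) (fun F => Wt c p k0 u m L s F * ind (HR u T s F)) ≤
      2 * (L * (2 * L + 1) : ℕ) *
        Ex (fun _ => p) (boxE n) (fun F =>
          QJ c (H * (m : ℝ) ^ (91 / 48 : ℝ)) p k0 u m L s J F * ind (HR u T s F) *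
            ind (|(Sz n (0, 0) F : ℝ) - N| ≤ (T : ℝ) ^ (1 / 2 : ℝ) * (m : ℝ) ^ (91 / 48 : ℝ)))

/-! ### Part J: conclusion -/

/-- J-FIN. The lower bound at one scale.
Proof. Let `J` be from I-EXJ, `q = QJ`, `h k = Ex (q * gg (8s) 0 * ind (Sz n 0 = k))`,
`M = s^(91/48)`, `D = ⌈T^(1/2) m^(91/48)⌉`, `K = L (2L+1) ≤ T²`, `w = Ex Wt = Ex q` (I-HYBW (1)).
F-FOUR (for `q`, by I-HYBW (3); `s = 20 k0 2^(τ+j)`) and A-INV give `|h (k+1) - h k| ≤ C w / M²`. On
`q * ind HR ≠ 0`: `fl (8s) 0 0 F` by H-CONK, so `gg ≥ 1/4`; hence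
`Σ_{|k - N| ≤ D} h k ≥ Ex (q ind HR ind (|Sz - N| ≤ D)) / 4 ≥ Ex (Wt ind HR) / (8K) ≥
κ^11 w / (8K)`. G-SMO: `κ^11 w / (8K) ≤ (2D+1) (h N + D C w / M²)`. As `D ≤ 2 T^(1/2) m^(91/48)`,
`M = (20 k0)^(91/48) T^(91/48) m^(91/48)`, we have `K D² / M² ≤ 4 T³ / T^(91/24)`, which is
arbitrarily small for `T ≥ T0`, so `h N ≥ κ^11 w / (48 K D)`. By F-INF with `n ≥ N + 1`,
`pf p N = Pr (Sz = N) ≥ (c cH)^K h N` as `(c cH)^K q gg ≤ 1`, and
`w ≥ arm p (100u) c^((L+2)(2L+1)) / 2 ≥ c' m^(-5/48)` (I-LOCW (4), (5), `NW`). So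
`pf p N ≥ c'' m^(-5/48) m^(-91/48) = c'' m^(-2) ≥ c''' N^(-96/91)`, with constants depending on `T`. -/
def S_FIN : Prop := ∀ (k0 : ℕ), K0P k0 → ∀ κ a : ℝ, 0 < κ → 0 < a →
  ∃ (c1 : ℝ) (ρ T0 : ℕ), 0 < c1 ∧ ∀ τ : ℕ, T0 ≤ 2 ^ τ → ∃ c : ℝ, 0 < c ∧
  ∀ (p : unitInterval) (j m N : ℕ), ρ ≤ j → m = 2 ^ j → NW κ a p (20 * 2 ^ τ * (k0 * m)) →
  c1 * (2 ^ τ : ℝ) ^ 2 * (m : ℝ) ^ (91 / 48 : ℝ) ≤ N →
  N ≤ 4 * (c1 * (2 ^ τ : ℝ) ^ 2 * (m : ℝ) ^ (91 / 48 : ℝ)) →
  c * (N : ℝ) ^ (-(96 / 91) : ℝ) ≤ pf p N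

/-- J-SML. Clusters of bounded size.
Proof. The cylinder event: the `N - 1` edges of the path `(0,0), (1,0), …, (N-1,0)` are open, the
other edges with an end in this path (`2N + 2` edges) are closed. The cluster is this path. Its
probability is at least `(1/4)^(3N+1)` as `1/4 ≤ p ≤ 1/2` and `1/4 ≤ 1 - p`. (With F-INF this is an
event in a finite box.) -/
def S_SML : Prop := ∀ (p : unitInterval) (N : ℕ), 1 / 4 ≤ (p : ℝ) → (p : ℝ) ≤ 1 / 2 → 1 ≤ N →
  (1 / 4 : ℝ) ^ (10 * N + 10) ≤ pf p N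

/-- J-LOW. The lower bound for the law of the cluster size, up to any multiple of the
characteristic size.
Proof. Let `t = 1/2 - p`, `n0 = ⌈N^(48/91)⌉`. `Pool.Agent.W424.NC.nearG` gives absolute `κ, a, C` and
`w ≤ n0` with `NW κ a p (4w)` and `w = n0` or `1 ≤ C w t^(4/3)`. Since
`t^(4/3) ≤ (K1 / N)^(48/91)`, in both cases `w ≥ ε N^(48/91)` with `ε > 0` depending on `K1`. Let
`k0` be from C-K0 and `c1, ρ, T0` from J-FIN. Choose `τ` with `T0 ≤ 2^τ` and
`20 k0 c1^(-48/91) (2^τ)^(-5/91) ≤ ε`. If `N < c1 4^τ (2^ρ)^(91/48)` then `N` is bounded and J-SML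
suffices. Otherwise let `j ≥ ρ` be the largest integer with `c1 4^τ (2^j)^(91/48) ≤ N`, `m = 2^j`;
then `N ≤ 4 c1 4^τ m^(91/48)` as `2^(91/48) ≤ 4`. `m ≤ (N / (c1 4^τ))^(48/91)`, so
`20 2^τ k0 m ≤ 20 k0 c1^(-48/91) (2^τ)^(1 - 96/91) N^(48/91) ≤ ε N^(48/91) ≤ w` and J-FIN applies. -/
def S_LOW : Prop := ∀ K1 : ℝ, 0 < K1 → ∃ c : ℝ, 0 < c ∧ ∀ (p : unitInterval) (N : ℕ),
  1 / 4 ≤ (p : ℝ) → (p : ℝ) ≤ 1 / 2 → 1 ≤ N → N * (1 / 2 - (p : ℝ)) ^ (91 / 36 : ℝ) ≤ K1 →
  c * (N : ℝ) ^ (-(96 / 91) : ℝ) ≤ pf p N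

end Q78.FE
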