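import Pool.Agent.Q78.FE.Stm
import Pool.Agent.Q14.FE.BINT
import Pool.Agent.Q14.FE.CEX
import Pool.Agent.Q14.FE.GAP
import Pool.Agent.Q14.FE.INV
import Pool.Agent.Q14.FE.R12
import Pool.Agent.Q16.FE.UP
import Pool.Agent.Q16.FE.UPH
import Pool.Agent.Q16.FE.UPD
import Pool.Agent.Q222.FE.BIG
import Pool.Agent.Q222.FE.Fin
import Pool.Agent.Q222.FE.INF
import Pool.Agent.Q222.FE.ONE
import Pool.Agent.Q222.FE.SYM
import Pool.Agent.Q222.FE.TAIL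
import Pool.Agent.Q239.FE.B1
import Pool.Agent.Q239.FE.B2
import Pool.Agent.Q239.FE.B3
import Pool.Agent.Q239.FE.D1
import Pool.Agent.Q239.FE.D2
import Pool.Agent.Q239.FE.D3
import Pool.Agent.Q239.FE.E1
import Pool.Agent.Q277.FE.TOUCH
import Pool.Agent.Q277.FE.DOM
import Pool.Agent.Q277.FE.FOUR
import Pool.Agent.Q277.FE.YIN

/-!
Project FE (helper78): assembly of part 1 (upper bound and regularity).
-/

set_option autoImplicit false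

namespace Q78.FE

theorem a_YIN : S_YIN := Q277.FE.YIN.t_YIN Pool.Agent.Q239.FE.t_LOC

theorem a_TOUCH : S_TOUCH :=
  Q277.FE.t_TOUCH Pool.Agent.Q239.FE.t_LOC Pool.Agent.Q239.FE.t_CONN

theorem a_DOM : S_DOM :=
  Q277.FE.t_DOM Pool.Agent.Q14.FE.t_CEX Pool.Agent.Q239.FE.t_LOC Pool.Agent.Q239.FE.t_REG
    Pool.Agent.Q239.FE.t_OPEN Pool.Agent.Q239.FE.t_PATH Pool.Agent.Q239.FE.t_COL a_TOUCH

theorem a_STRIP : S_STRIP :=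
  Pool.Agent.Q239.FE.t_STRIP Pool.Agent.Q14.FE.t_BINT a_DOM

theorem a_ONE : S_ONE :=
  Q222.FE.ONE.t_ONE Pool.Agent.Q14.FE.t_GAP Pool.Agent.Q239.FE.t_LOC a_YIN Q222.FE.t_YEX

theorem a_FOUR : S_FOUR :=
  Q277.FE.t_FOUR Pool.Agent.Q14.FE.t_CEX a_ONE Q222.FE.BIG.t_BIG a_STRIP

theorem a_DIFF : S_DIFF :=
  Q222.FE.t_DIFF Pool.Agent.Q14.FE.t_INV Q222.FE.t_SYM a_FOUR

theorem a_UPH : S_UPH :=
  Q16.FE.t_UPH Pool.Agent.Q14.FE.t_R1 Pool.Agent.Q14.FE.t_R2 Q222.FE.TAIL.t_TL a_DIFF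

theorem a_UPD : S_UPD :=
  Q16.FE.t_UPD Pool.Agent.Q14.FE.t_R1 Pool.Agent.Q14.FE.t_R2 Q222.FE.TAIL.t_TL Q222.FE.TAIL.t_TAIL
    a_DIFF

theorem a_UP : S_UP :=
  Q16.FE.t_UP Q222.FE.t_K0 Q222.FE.INF.t_INF Q222.FE.TAIL.t_TL a_UPH a_UPD

end Q78.FE
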